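import Pool.Agent.HP27.EN.C
import Pool.Agent.TH890.AutTup2

set_option autoImplicit false

/-! One random shift or reflection, arbitrary coefficients. -/

namespace Pool.Agent.HP27.RG
open Finset
open Pool.Agent.H807R2.Dav
open Pool.Agent.H373R2.T7
open Pool.Agent.HP25.OS (dual logs)
open Pool.Agent.HP27.EN (Em EL one_vm atom el_law)

/-- the model, on all integers -/
noncomputable def lamzA (z : ℕ) (k : ℤ) : ℝ := if ∀ p ∈ pz z, ¬ (p : ℤ) ∣ k then (Vz z)⁻¹ else 0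

lemma lamzI_eq (z : ℕ) (k : ℤ) (hk : 1 ≤ k) : lamzI z k = lamzA z k := by
  unfold lamzI lamzA lamz
  rw [if_pos hk]
  have e : ∀ p : ℕ, p ∣ k.toNat ↔ (p : ℤ) ∣ k := by
    intro p
    rw [← Int.natCast_dvd_natCast, Int.toNat_of_nonneg (by omega)]
  simp only [e]

/-- one random shift (`σ = 1`) or reflection (`σ = -1`) -/
theorem one_sgn (q : ℕ) (hq : 1 ≤ q) (F W U : ℕ) : ∃ B : ℕ, ∀ E : ℕ, ∃ N₀ : ℕ, ∀ N : ℕ, N₀ ≤ N →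
    ∀ (Ω : Finset ℕ) (p : ℕ → ℝ), EL q F W N Ω p → ∀ z : ℕ, Real.log N ^ B ≤ z → (z : ℝ) ≤ Real.log N ^ E →
    ∀ σ : ℤ, (σ = 1 ∨ σ = -1) → ∀ Kc : ℝ, 0 ≤ Kc → ∀ G : ℕ → ℝ, (∀ n ∈ Icc 1 N, |G n| ≤ Kc) →
    ∑ v ∈ Ω, p v * |∑ n ∈ Icc 1 N, G n * (lamI ((v : ℤ) + σ * (n : ℤ)) - lamzI z ((v : ℤ) + σ * (n : ℤ)))| ≤
      Kc * (N / Real.log N ^ U) := by
  obtain ⟨B, hB⟩ := one_vm (ι := ℕ) q hq F W U
  refine ⟨B, fun E => ?_⟩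
  obtain ⟨K₀, hK₀⟩ := hB E
  refine ⟨K₀, fun N hN Ω p hL z hz1 hz2 σ hσ Kc hKc G hG => ?_⟩
  obtain ⟨hp0, hE⟩ := hL
  exact dual (s := Ω) (p := p) N (N / Real.log N ^ U) (fun i n => lamI ((i : ℤ) + σ * (n : ℤ)) -
      lamzI z ((i : ℤ) + σ * (n : ℤ))) (fun G' hG' =>
        hK₀ N hN Ω p (fun v => (v : ℤ)) hE z hz1 hz2 N le_rfl σ hσ G' hG') Kc hKc G hG

/-- no value has a large probability -/
lemma el_atom (q : ℕ) (hq : 1 ≤ q) (F W U : ℕ) : ∃ N₀ : ℕ, ∀ N : ℕ, N₀ ≤ N →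
    ∀ (Ω : Finset ℕ) (p : ℕ → ℝ), EL q F W N Ω p → ∀ v ∈ Ω, p v ≤ 1 / Real.log N ^ U := by
  obtain ⟨A, B, h⟩ := Pool.Agent.HP27.EN.oneLaw_EL q hq F W U
  obtain ⟨N₀, h⟩ := h 0
  refine ⟨N₀, fun N hN Ω p hL => ?_⟩
  exact (h N hN Ω p hL 0 (Nat.zero_le _)).2.2.1

end Pool.Agent.HP27.RG
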