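import Pool.Agent.HP27.RG.A

set_option autoImplicit false

/-! The deterministic main terms for shifts and reflections, all initial segments. -/

namespace Pool.Agent.HP27.RG
open Finset
open Pool.Agent.H807R2.Dav
open Pool.Agent.H373R2.T7
open Pool.Agent.W93.TD

lemma lamzA_symm (z : ℕ) (σ : ℤ) (hσ : σ = 1 ∨ σ = -1) (m n : ℤ) : lamzA z (m + σ * n) = lamzA z (n + σ * m) := by
  unfold lamzA
  have e : ∀ p : ℕ, (p : ℤ) ∣ m + σ * n ↔ (p : ℤ) ∣ n + σ * m := by
    intro p
    rcases hσ with h | h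
    · subst h
      rw [show m + 1 * n = n + 1 * m by ring]
    · subst h
      rw [show m + -1 * n = -(n + -1 * m) by ring, dvd_neg]
  simp only [e]

lemma lamzA_nonneg (z : ℕ) (k : ℤ) : 0 ≤ lamzA z k := by
  unfold lamzA
  split_ifs
  · exact (inv_pos.2 (Vz_pos z)).le
  · exact le_rfl

lemma lamzA_le (z : ℕ) (k : ℤ) : lamzA z k ≤ (Vz z)⁻¹ := by
  unfold lamzA
  split_ifs
  · exact le_rfl
  · exact (inv_pos.2 (Vz_pos z)).le

/-- the main term -/
theorem det_main (k E U : ℕ) (hk : 1 ≤ k) : ∃ n0 : ℕ, ∀ N : ℕ, n0 ≤ N → ∀ z : ℕ, 1 ≤ z → (z : ℝ) ≤ Real.log N ^ E →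
    ∀ σ : Fin k → ℤ, (∀ i, σ i = 1 ∨ σ i = -1) → ∀ (m : Fin k → ℕ) (y : ℕ), y ≤ N → (∀ i, σ i = -1 → y < m i) →
    |∑ n ∈ Icc 1 y, ArithmeticFunction.vonMangoldt n * ∏ i, lamzI z ((m i : ℤ) + σ i * (n : ℤ)) -
      singZ (fun i => σ i * (m i : ℤ)) z * y| ≤ N / Real.log N ^ U := by
  obtain ⟨n1, h1⟩ := tuple_main k (E + 1) (U + 1) hk
  obtain ⟨n2, h2⟩ := Vz_inv_small E
  obtain ⟨n3, h3⟩ := ev_log' (U + k + 2) 2
  obtain ⟨n4, h4⟩ := ev_L' (2 * 2 ^ E + 2 ^ (U + 1) + 2)
  refine ⟨n1 ^ 4 + n2 + n3 + n4 + 2, fun N hN z hz hzE σ hσ m y hy hm => ?_⟩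
  obtain ⟨L, hL⟩ : ∃ L, L = Real.log N := ⟨_, rfl⟩
  have hV := h2 N (by omega) z hz hzE
  have g3 := h3 N (by omega)
  have g4 := h4 N (by omega)
  rw [← hL] at hV g3 g4 hzE ⊢
  have hE0 : (0 : ℝ) < 2 ^ E := by positivity
  have hU0 : (0 : ℝ) < 2 ^ (U + 1) := by positivity
  have hL2 : 2 ≤ L := by linarith
  have hL0 : 0 < L := by linarith
  have hN0 : (0 : ℝ) < N := by exact_mod_cast (by omega : 0 < N)
  have hV0 := (inv_pos.2 (Vz_pos z)).le
  -- the sum with divisibilities
  obtain ⟨a, ha⟩ : ∃ a : Fin k → ℤ, ∀ i, a i = σ i * (m i : ℤ) := ⟨_, fun _ => rfl⟩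
  have ea : (fun i => σ i * (m i : ℤ)) = a := by funext i; rw [ha]
  rw [ea]
  have e1 : ∑ n ∈ Icc 1 y, ArithmeticFunction.vonMangoldt n * ∏ i, lamzI z ((m i : ℤ) + σ i * (n : ℤ)) =
      ∑ n ∈ Icc 1 y, ArithmeticFunction.vonMangoldt n * ∏ i, lamzA z ((n : ℤ) + a i) := by
    apply sum_congr rfl
    intro n hn
    rw [mem_Icc] at hn
    congr 1
    apply prod_congr rfl
    intro i _
    rw [lamzI_eq, lamzA_symm z (σ i) (hσ i), ha]
    rcases hσ i with h | h
    · rw [h]
      have : (0 : ℤ) ≤ m i := Int.natCast_nonneg _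
      omega
    · have := hm i h
      rw [h]
      omega
  rw [e1]
  by_cases hys : n1 ^ 2 ≤ y ∧ (N : ℝ) ≤ (y : ℝ) ^ 2
  · obtain ⟨hy1, hy2⟩ := hys
    have hyn1 : n1 ≤ y := by
      rcases Nat.eq_zero_or_pos n1 with h | h
      · omega
      · calc n1 ≤ n1 ^ 2 := by nlinarith
          _ ≤ y := hy1
    have hy0 : (0 : ℝ) < y := by
      rcases Nat.eq_zero_or_pos y with h | h
      · rw [h] at hy2
        norm_num at hy2
        exact absurd hy2 (by omega)
      · exact_mod_cast h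
    obtain ⟨Ly, hLy⟩ : ∃ Ly, Ly = Real.log y := ⟨_, rfl⟩
    have hLy1 : L ≤ 2 * Ly := by
      have := Real.log_le_log hN0 hy2
      rw [Real.log_pow, ← hL, ← hLy] at this
      exact_mod_cast this
    have hLy2 : Ly ≤ L := by
      rw [hLy, hL]
      exact Real.log_le_log hy0 (by exact_mod_cast hy)
    have hLy0 : 0 < Ly := by linarith
    have hzy : (z : ℝ) ≤ Real.log y ^ (E + 1) := by
      rw [← hLy]
      calc (z : ℝ) ≤ L ^ E := hzE
        _ ≤ (2 * Ly) ^ E := pow_le_pow_left₀ hL0.le hLy1 E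
        _ = 2 ^ E * Ly ^ E := mul_pow _ _ _
        _ ≤ Ly * Ly ^ E := by
            apply mul_le_mul_of_nonneg_right _ (by positivity)
            linarith
        _ = Ly ^ (E + 1) := by rw [pow_succ]; ring
    have h5 := h1 y hyn1 z hz hzy a
    rw [← hLy] at h5
    refine h5.trans ?_
    have hyN : (y : ℝ) ≤ N := by exact_mod_cast hy
    rw [div_le_div_iff₀ (by positivity) (by positivity)]
    calc (y : ℝ) * L ^ U ≤ N * L ^ U := mul_le_mul_of_nonneg_right hyN (by positivity)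
      _ ≤ N * Ly ^ (U + 1) := by
          apply mul_le_mul_of_nonneg_left _ hN0.le
          have h6 : L ^ (U + 1) ≤ (2 * Ly) ^ (U + 1) := pow_le_pow_left₀ hL0.le hLy1 _
          rw [mul_pow] at h6
          have h7 : 2 ^ (U + 1) * L ^ U ≤ L ^ (U + 1) := by
            rw [pow_succ L U, mul_comm]
            apply mul_le_mul_of_nonneg_left _ (by positivity)
            linarith
          have h8 := h7.trans h6
          exact le_of_mul_le_mul_left h8 hU0
  · have hy3 : (y : ℝ) ≤ √(N : ℝ) := by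
      rw [not_and_or, not_le, not_le] at hys
      apply Real.le_sqrt_of_sq_le
      rcases hys with h | h
      · have h6 : y ^ 2 ≤ N := by
          calc y ^ 2 ≤ (n1 ^ 2) ^ 2 := Nat.pow_le_pow_left h.le 2
            _ = n1 ^ 4 := by ring
            _ ≤ N := by omega
        exact_mod_cast h6
      · exact h.le
    have hs1 := singZ_le a z L hV
    have hs0 := singZ_nonneg a z
    have hy0 : (0 : ℝ) ≤ y := Nat.cast_nonneg _
    have h6 : |∑ n ∈ Icc 1 y, ArithmeticFunction.vonMangoldt n * ∏ i, lamzA z ((n : ℤ) + a i)| ≤ y * (L * L ^ k) := by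
      refine (abs_sum_le_sum_abs _ _).trans ?_
      calc ∑ n ∈ Icc 1 y, |ArithmeticFunction.vonMangoldt n * ∏ i, lamzA z ((n : ℤ) + a i)| ≤ ∑ _n ∈ Icc 1 y, (L * L ^ k) := by
            apply sum_le_sum
            intro n hn
            rw [mem_Icc] at hn
            rw [abs_mul, abs_of_nonneg ArithmeticFunction.vonMangoldt_nonneg,
              abs_of_nonneg (prod_nonneg fun i _ => lamzA_nonneg _ _)]
            apply mul_le_mul _ _ (prod_nonneg fun i _ => lamzA_nonneg _ _) hL0.le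
            · refine ArithmeticFunction.vonMangoldt_le_log.trans ?_
              rw [hL]
              apply Real.log_le_log (by exact_mod_cast hn.1)
              exact_mod_cast hn.2.trans hy
            · calc ∏ i, lamzA z ((n : ℤ) + a i) ≤ ∏ _i : Fin k, L := by
                    apply prod_le_prod (fun i _ => lamzA_nonneg _ _)
                    intro i _
                    exact (lamzA_le _ _).trans hV
                _ = L ^ k := by rw [prod_const, card_univ, Fintype.card_fin]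
        _ = y * (L * L ^ k) := by rw [sum_const, Nat.card_Icc, Nat.add_sub_cancel, nsmul_eq_mul]
    have h7 : |singZ a z * y| ≤ L ^ k * y := by
      rw [abs_of_nonneg (by positivity)]
      exact mul_le_mul_of_nonneg_right hs1 hy0
    refine (abs_sub _ _).trans ?_
    have hss : √(N : ℝ) * √(N : ℝ) = N := Real.mul_self_sqrt hN0.le
    have hs : 0 < √(N : ℝ) := Real.sqrt_pos.2 hN0
    rw [le_div_iff₀ (by positivity)]
    calc (|∑ n ∈ Icc 1 y, ArithmeticFunction.vonMangoldt n * ∏ i, lamzA z ((n : ℤ) + a i)| + |singZ a z * y|) * L ^ U ≤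
        (y * (L * L ^ k) + L ^ k * y) * L ^ U := mul_le_mul_of_nonneg_right (add_le_add h6 h7) (by positivity)
      _ = y * ((1 + L) * L ^ (U + k)) := by rw [pow_add]; ring
      _ ≤ √N * (2 * L ^ (U + k + 2)) := by
          apply mul_le_mul hy3 _ (by positivity) hs.le
          calc (1 + L) * L ^ (U + k) ≤ (2 * L ^ 2) * L ^ (U + k) := by
                apply mul_le_mul_of_nonneg_right _ (by positivity)
                nlinarith
            _ = 2 * L ^ (U + k + 2) := by rw [pow_add L (U + k) 2]; ring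
      _ ≤ √N * √N := mul_le_mul_of_nonneg_left g3 hs.le
      _ = N := hss

/-- the limit of the singular series -/
theorem sing_lim (k B U : ℕ) : ∃ n0 : ℕ, ∀ N : ℕ, n0 ≤ N → ∀ z : ℕ, Real.log N ^ (U + k + 4) ≤ z →
    (z : ℝ) ≤ Real.log N ^ (U + k + 5) →
    ∀ a : Fin k → ℤ, (∀ i, |a i| ≤ ((B * N : ℕ) : ℤ)) → (∀ i, a i ≠ 0) → (∀ i j, i ≠ j → a i ≠ a j) →
    ∃ S : ℝ, Filter.Tendsto (fun z => singZ a z) Filter.atTop (nhds S) ∧
      |S - singZ a z| ≤ 1 / Real.log N ^ (U + 2) := by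
  obtain ⟨n2, h2⟩ := Vz_inv_small (U + k + 5)
  set c1 : ℕ := 1 + B with hc1
  set c2 : ℝ := (k + 1 : ℝ) ^ 2 + 4 * (k + 1) * ((k + k * k) * 8) with hc2
  obtain ⟨n5, h5⟩ := ev_L' (Real.log (2 * c1) + 4 * (k + k * k) + c2 + 3 * (k + 1) + 16)
  refine ⟨max n2 (max n5 3), fun N hN z hz1 hz2 a' ha ha1 ha2 => ?_⟩
  have b2 := le_trans (le_max_left _ _) hN
  have b5 := le_trans (le_trans (le_max_left _ _) (le_max_right _ _)) hN
  have hN3 : 3 ≤ N := le_trans (le_trans (le_max_right _ _) (le_max_right _ _)) hN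
  have hNr : (3 : ℝ) ≤ N := by exact_mod_cast hN3
  have hN0' : (0 : ℝ) < N := by linarith
  have hL := h5 N b5
  set L := Real.log N with hLd
  have hc1r : (1 : ℝ) ≤ c1 := by rw [hc1]; push_cast; linarith [Nat.cast_nonneg (α := ℝ) B]
  have hk0 : (0 : ℝ) ≤ k := Nat.cast_nonneg _
  have hlc1 : 0 ≤ Real.log (2 * c1) := Real.log_nonneg (by linarith)
  have hc20 : 0 < c2 := by positivity
  have hkD : 0 ≤ 4 * ((k : ℝ) + k * k) := by positivity
  have hL16 : 16 ≤ L := by nlinarith
  have hL1 : 1 ≤ L := by linarith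
  have hL0 : 0 < L := by linarith
  have hLa : Real.log (2 * c1) ≤ L := by linarith
  have hLb : 4 * ((k : ℝ) + k * k) ≤ L := by linarith
  have hLc : c2 ≤ L := by linarith
  have hLd' : 3 * ((k : ℝ) + 1) ≤ L := by linarith
  have hz0 : (0 : ℝ) < z := lt_of_lt_of_le (by positivity) hz1
  have hzn : 1 ≤ z := by exact_mod_cast hz0
  have hV := h2 N b2 z hzn hz2
  obtain ⟨S, hS, hSb⟩ := sing_limit a' ha1 ha2
  refine ⟨S, hS, ?_⟩
  -- size of the shifts
  have hsize : ∀ i, (a' i).natAbs ≤ c1 * N := by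
    intro i
    have h6 := ha i
    have h7 : ((a' i).natAbs : ℤ) = |a' i| := Int.natCast_natAbs _
    have h8 : (a' i).natAbs ≤ B * N := by
      have : ((a' i).natAbs : ℤ) ≤ ((B * N : ℕ) : ℤ) := by rw [h7]; exact h6
      exact_mod_cast this
    rw [hc1, add_mul]
    omega
  set Y := 2 * c1 * N with hY
  have hbad := card_badP a' Y (fun i => (hsize i).trans (by rw [hY]; nlinarith [Nat.zero_le (c1 * N)])) (fun i j => by
    have h6 := Int.natAbs_sub_le (a' i) (a' j)
    have h7 := hsize i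
    have h8 := hsize j
    rw [hY]
    calc (a' i - a' j).natAbs ≤ c1 * N + c1 * N := h6.trans (add_le_add h7 h8)
      _ = _ := by ring)
  have hY1 : 1 ≤ Y := by rw [hY, hc1]; nlinarith
  have hlogY : (Nat.log 2 Y : ℝ) ≤ 4 * L := by
    refine (natlog_le Y hY1).trans ?_
    have h6 : (Y : ℝ) = (2 * c1) * N := by rw [hY]; push_cast; ring
    rw [h6, Real.log_mul (by positivity) hN0'.ne']
    linarith
  have hKc : Kc a' ≤ c2 * L := by
    unfold Kc
    have h6 : ((badP a').card : ℝ) ≤ (k + k * k) * (4 * L) := by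
      have h7 : ((badP a').card : ℝ) ≤ (k + k * k) * (Nat.log 2 Y : ℝ) := by exact_mod_cast hbad
      refine h7.trans ?_
      apply mul_le_mul_of_nonneg_left hlogY (by positivity)
    push_cast
    calc ((k : ℝ) + 1) ^ 2 + 4 * (k + 1) * ((badP a').card : ℝ) ≤ ((k : ℝ) + 1) ^ 2 * L + 4 * (k + 1) * ((k + k * k) * (4 * L)) := by
          apply add_le_add
          · exact le_mul_of_one_le_right (by positivity) hL1
          · gcongr
      _ ≤ c2 * L := by
          rw [hc2]
          have : 0 ≤ 4 * ((k : ℝ) + 1) * ((k + k * k) * (4 * L)) := by positivity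
          nlinarith
  have hKL : Kc a' ≤ L ^ 2 := by nlinarith
  have hL2z : L ^ 2 ≤ z := (pow_le_pow_right₀ hL1 (by omega)).trans hz1
  have h3k : 3 * (k + 1) ≤ z := by
    have h6 : (3 * ((k : ℝ) + 1)) ≤ z := by
      have : L ≤ L ^ 2 := by nlinarith
      linarith
    exact_mod_cast h6
  have hdiff := hSb z h3k (hKL.trans hL2z)
  have hsz := singZ_le a' z L hV
  have hs0 := singZ_nonneg a' z
  refine hdiff.trans ?_
  calc singZ a' z * (Kc a' / z) ≤ L ^ k * (L ^ 2 / L ^ (U + k + 4)) := by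
        apply mul_le_mul hsz _ (by
          apply div_nonneg _ hz0.le
          unfold Kc; positivity) (by positivity)
        apply div_le_div₀ (by positivity) hKL (by positivity) hz1
    _ = L ^ (k + 2) / L ^ (U + k + 4) := by rw [pow_add]; ring
    _ ≤ 1 / L ^ (U + 2) := by
        rw [div_le_div_iff₀ (by positivity) (by positivity), one_mul, ← pow_add]
        exact pow_le_pow_right₀ hL1 (by omega)

end Pool.Agent.HP27.RG
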