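import Pool.Agent.HP27.RG.B

set_option autoImplicit false

/-! The weighted counts for independent random shifts and reflections, all initial segments. -/

namespace Pool.Agent.HP27.RG
open Finset
open Pool.Agent.H807R2.Dav
open Pool.Agent.H373R2.T7
open Pool.Agent.W93.TD (tele_w avg_w total_w)
open Pool.Agent.HP27.EN (Em EL el_law)
open Pool.Agent.TH890 (os_degen)

/-- the weighted count -/
noncomputable def FL {s : ℕ} (σ : Fin s → ℤ) (m : Fin s → ℕ) (y : ℕ) : ℝ :=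
  ∑ n ∈ Icc 1 y, ArithmeticFunction.vonMangoldt n * ∏ i, lamI ((m i : ℤ) + σ i * (n : ℤ))

/-- its model -/
noncomputable def FZ {s : ℕ} (z : ℕ) (σ : Fin s → ℤ) (m : Fin s → ℕ) (y : ℕ) : ℝ :=
  ∑ n ∈ Icc 1 y, ArithmeticFunction.vonMangoldt n * ∏ i, lamzI z ((m i : ℤ) + σ i * (n : ℤ))

lemma FL_mono {s : ℕ} (σ : Fin s → ℤ) (m : Fin s → ℕ) (y y' : ℕ) (h : y ≤ y') : FL σ m y ≤ FL σ m y' := by
  unfold FL
  apply sum_le_sum_of_subset_of_nonneg (Icc_subset_Icc_right h)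
  intro n _ _
  exact mul_nonneg ArithmeticFunction.vonMangoldt_nonneg (prod_nonneg fun i _ => lamI_nonneg _)

lemma FL_nonneg {s : ℕ} (σ : Fin s → ℤ) (m : Fin s → ℕ) (y : ℕ) : 0 ≤ FL σ m y := by
  unfold FL
  exact sum_nonneg fun n _ => mul_nonneg ArithmeticFunction.vonMangoldt_nonneg (prod_nonneg fun i _ => lamI_nonneg _)

theorem avg_diff (s : ℕ) (q : Fin s → ℕ) (hq : ∀ i, 1 ≤ q i) (F W U : ℕ) : ∃ B : ℕ, ∀ E : ℕ, ∃ N₀ : ℕ, ∀ N : ℕ, N₀ ≤ N →
    ∀ (Ω : Fin s → Finset ℕ) (p : Fin s → ℕ → ℝ), (∀ i, EL (q i) F W N (Ω i) (p i)) →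
    ∀ z : ℕ, Real.log N ^ B ≤ z → (z : ℝ) ≤ Real.log N ^ E →
    ∀ σ : Fin s → ℤ, (∀ i, σ i = 1 ∨ σ i = -1) → ∀ y ≤ N,
    ∑ m ∈ Fintype.piFinset Ω, (∏ i, p i (m i)) * |FL σ m y - FZ z σ m y| ≤ N / Real.log N ^ U := by
  choose B0 h0 using fun i => one_sgn (q i) (hq i) F W (U + s + 2)
  obtain ⟨B, hB⟩ : ∃ B, B = ∑ i, B0 i := ⟨_, rfl⟩
  have hBi : ∀ i, B0 i ≤ B := fun i => by rw [hB]; exact single_le_sum (fun _ _ => Nat.zero_le _) (mem_univ i)
  refine ⟨B, fun E => ?_⟩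
  choose N1 h1 using fun i => h0 i E
  obtain ⟨Nt, hNt⟩ : ∃ Nt, Nt = ∑ i, N1 i := ⟨_, rfl⟩
  have hNi : ∀ i, N1 i ≤ Nt := fun i => by rw [hNt]; exact single_le_sum (fun _ _ => Nat.zero_le _) (mem_univ i)
  obtain ⟨n3, h3⟩ := Vz_inv_small E
  obtain ⟨n4, h4⟩ := ev_L' (2 + (s : ℝ) * 2 ^ s + Real.log ((F + 1 : ℕ) : ℝ))
  refine ⟨Nt + n3 + n4 + 2, fun N hN Ω p hE z hz1 hz2 σ hσ y hy => ?_⟩
  obtain ⟨L, hL⟩ : ∃ L, L = Real.log N := ⟨_, rfl⟩
  have hLb := h4 N (by omega)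
  rw [← hL] at hz1 hz2 hLb ⊢
  have q0 : 0 ≤ Real.log ((F + 1 : ℕ) : ℝ) := Real.log_natCast_nonneg _
  have q1 : 0 ≤ (s : ℝ) * 2 ^ s := by positivity
  have hL1 : 1 ≤ L := by linarith
  have hL0 : 0 < L := by linarith
  have hLA : Real.log ((F + 1 : ℕ) : ℝ) ≤ L := by linarith
  have hbig : (s : ℝ) * 2 ^ s ≤ L := by linarith
  have hN0 : (0 : ℝ) < N := by exact_mod_cast (by omega : 0 < N)
  have hzn : 1 ≤ z := by
    have : (1 : ℝ) ≤ z := (one_le_pow₀ hL1).trans hz1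
    exact_mod_cast this
  have hV := h3 N (by omega) z hzn (by rw [← hL]; exact hz2)
  rw [← hL] at hV
  have hlaw := fun i => el_law (hE i)
  have hlogX : Real.log (((F + 1) * N : ℕ) : ℝ) ≤ 2 * L := by
    rw [Nat.cast_mul, Real.log_mul (by positivity) hN0.ne', ← hL]
    linarith
  have hX1 : 1 ≤ (F + 1) * N := Nat.mul_pos (by omega) (by omega)
  have hup : ∀ i, ∀ n ∈ Icc 1 N, ∀ v ∈ Ω i, (((v : ℤ) + σ i * (n : ℤ) : ℤ) : ℝ) ≤ (((F + 1) * N : ℕ) : ℝ) := by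
    intro i n hn v hv
    rw [mem_Icc] at hn
    have g1 := (hlaw i).2.2 v hv
    have g2 : σ i * (n : ℤ) ≤ (n : ℤ) := by
      rcases hσ i with h | h <;> rw [h] <;> omega
    have g3 : (v : ℤ) ≤ ((F * N : ℕ) : ℤ) := by exact_mod_cast g1
    have g4 : (n : ℤ) ≤ N := by exact_mod_cast hn.2
    have g5 : (v : ℤ) + σ i * (n : ℤ) ≤ (((F + 1) * N : ℕ) : ℤ) := by
      push_cast at g3 ⊢
      linarith
    exact_mod_cast g5
  have key := tele_w N Ω p (fun i v _ => (hlaw i).1 v) (fun i => (hlaw i).2.1)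
    (fun i n v => lamI ((v : ℤ) + σ i * (n : ℤ)))
    (fun i n v => lamzI z ((v : ℤ) + σ i * (n : ℤ)))
    (2 * L) ((N : ℝ) / L ^ (U + s + 2)) (by linarith) (by positivity) (by
      intro i n hn v hv
      rw [abs_of_nonneg (lamI_nonneg _)]
      exact (lamI_le _ _ (by exact_mod_cast hX1) (hup i n hn v hv)).trans hlogX) (by
      intro i n hn v hv
      rw [abs_of_nonneg (lamzI_nonneg _ _)]
      exact (lamzI_le z _).trans (by linarith)) (by
      intro i K hK G hG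
      have := h1 i N (by have := hNi i; omega) (Ω i) (p i) (hE i) z (by
        rw [← hL]
        exact (pow_le_pow_right₀ hL1 (hBi i)).trans hz1) (by rw [← hL]; exact hz2) (σ i) (hσ i) K hK.le G hG
      rw [← hL] at this
      exact this)
    univ L hL0 (fun n _ => if n ≤ y then ArithmeticFunction.vonMangoldt n else 0) (by
      intro n hn m _
      rw [mem_Icc] at hn
      split_ifs
      · rw [abs_of_nonneg ArithmeticFunction.vonMangoldt_nonneg]
        have q1 : Real.log (n : ℝ) ≤ L := by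
          rw [hL]
          apply Real.log_le_log (by exact_mod_cast hn.1)
          exact_mod_cast hn.2
        exact ArithmeticFunction.vonMangoldt_le_log.trans q1
      · rw [abs_zero]; exact hL0.le) (by
      intro n m v i _; rfl)
  rw [card_univ, Fintype.card_fin] at key
  have e1 : ∀ m : Fin s → ℕ, FL σ m y - FZ z σ m y = ∑ n ∈ Icc 1 N, (if n ≤ y then ArithmeticFunction.vonMangoldt n else 0) *
      (∏ i, lamI ((m i : ℤ) + σ i * (n : ℤ)) - ∏ i, lamzI z ((m i : ℤ) + σ i * (n : ℤ))) := by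
    intro m
    unfold FL FZ
    rw [← sum_sub_distrib]
    have e2 : Icc 1 y = (Icc 1 N).filter (fun n => n ≤ y) := by
      ext n
      simp only [mem_Icc, mem_filter]
      omega
    rw [e2, sum_filter]
    apply sum_congr rfl
    intro n _
    split_ifs
    · ring
    · ring
  simp only [e1]
  refine key.trans ?_
  calc (s : ℝ) * (L * (2 * L) ^ s * (N / L ^ (U + s + 2))) = ((s : ℝ) * 2 ^ s) * (N / L ^ U * (L ^ (s + 1) / L ^ (s + 2))) := by
        rw [mul_pow, show U + s + 2 = U + (s + 2) by ring, pow_add L U, pow_succ L s]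
        field_simp
    _ ≤ L * (N / L ^ U * (L ^ (s + 1) / L ^ (s + 2))) := mul_le_mul_of_nonneg_right hbig (by positivity)
    _ = N / L ^ U := by
        rw [show s + 2 = (s + 1) + 1 by ring, pow_succ L (s + 1)]
        field_simp

end Pool.Agent.HP27.RG
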