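import Pool.Agent.HP27.RG.C

set_option autoImplicit false

/-! All initial segments at once, and the law of the property. -/

namespace Pool.Agent.HP27.RG
open Finset
open Pool.Agent.H807R2.Dav
open Pool.Agent.H373R2.T7
open Pool.Agent.W93.TD (avg_w total_w)
open Pool.Agent.HP27.EN (Em EL el_law)
open Pool.Agent.TH890 (os_degen)

lemma FZ_step {s : ℕ} (z : ℕ) (σ : Fin s → ℤ) (m : Fin s → ℕ) (y y' N : ℕ) (hyy : y ≤ y') (hy : y' ≤ N) (L : ℝ)
    (hL0 : 0 ≤ L) (hL : Real.log N ≤ L) (hV : (Vz z)⁻¹ ≤ L) :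
    FZ z σ m y' ≤ FZ z σ m y + ((y' : ℝ) - y) * (L * L ^ s) := by
  unfold FZ
  rw [← sum_sdiff (Icc_subset_Icc_right hyy : Icc 1 y ⊆ Icc 1 y'), add_comm]
  apply add_le_add_right
  have h1 : ∀ n ∈ Icc 1 y' \ Icc 1 y, ArithmeticFunction.vonMangoldt n * ∏ i, lamzI z ((m i : ℤ) + σ i * (n : ℤ)) ≤ L * L ^ s := by
    intro n hn
    rw [mem_sdiff, mem_Icc] at hn
    apply mul_le_mul _ _ (prod_nonneg fun i _ => lamzI_nonneg _ _) hL0
    · refine ArithmeticFunction.vonMangoldt_le_log.trans (le_trans ?_ hL)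
      apply Real.log_le_log (by exact_mod_cast hn.1.1)
      exact_mod_cast hn.1.2.trans hy
    · calc ∏ i, lamzI z ((m i : ℤ) + σ i * (n : ℤ)) ≤ ∏ _i : Fin s, L := by
            apply prod_le_prod (fun i _ => lamzI_nonneg _ _)
            intro i _
            exact (lamzI_le _ _).trans hV
        _ = L ^ s := by rw [prod_const, card_univ, Fintype.card_fin]
  refine (sum_le_sum h1).trans ?_
  rw [sum_const, nsmul_eq_mul, card_sdiff_of_subset (Icc_subset_Icc_right hyy), Nat.card_Icc, Nat.card_Icc]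
  apply mul_le_mul_of_nonneg_right _ (by positivity)
  have : y' + 1 - 1 - (y + 1 - 1) = y' - y := by omega
  rw [this, Nat.cast_sub hyy]

lemma FZ_mono {s : ℕ} (z : ℕ) (σ : Fin s → ℤ) (m : Fin s → ℕ) (y y' : ℕ) (h : y ≤ y') : FZ z σ m y ≤ FZ z σ m y' := by
  unfold FZ
  apply sum_le_sum_of_subset_of_nonneg (Icc_subset_Icc_right h)
  intro n _ _
  exact mul_nonneg ArithmeticFunction.vonMangoldt_nonneg (prod_nonneg fun i _ => lamzI_nonneg _ _)

/-- the grid -/
def tt (N J j : ℕ) : ℕ := min N (j * N / J)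

lemma tt_spec (N J y : ℕ) (hN : 1 ≤ N) (hJ : 1 ≤ J) (hy : y ≤ N) :
    y * J / N + 1 < J + 2 ∧ tt N J (y * J / N) ≤ y ∧ y ≤ tt N J (y * J / N + 1) ∧
    (tt N J (y * J / N + 1) : ℝ) - tt N J (y * J / N) ≤ N / J + 1 := by
  obtain ⟨j, hj⟩ : ∃ j, j = y * J / N := ⟨_, rfl⟩
  rw [← hj]
  have h1 : j * N ≤ y * J := by rw [hj]; exact Nat.div_mul_le_self _ _
  have h2 : y * J < (j + 1) * N := by
    rw [hj, mul_comm _ N]
    exact Nat.lt_mul_div_succ _ hN
  have h3 : j ≤ J := by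
    rw [hj]
    apply Nat.div_le_of_le_mul
    exact Nat.mul_le_mul_right J hy
  have hJr : (0 : ℝ) < J := by exact_mod_cast hJ
  refine ⟨by omega, ?_, ?_, ?_⟩
  · unfold tt
    refine (min_le_right _ _).trans ?_
    apply Nat.div_le_of_le_mul
    rw [mul_comm J y]
    exact h1
  · unfold tt
    rw [le_min_iff]
    refine ⟨hy, ?_⟩
    rw [Nat.le_div_iff_mul_le hJ]
    exact h2.le
  · unfold tt
    rcases le_total N (j * N / J) with h | h
    · rw [min_eq_left h]
      have h4 : ((min N ((j + 1) * N / J) : ℕ) : ℝ) ≤ N := by exact_mod_cast min_le_left _ _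
      have h5 : (0 : ℝ) ≤ N / J := by positivity
      linarith
    · rw [min_eq_right h]
      have h4 : ((min N ((j + 1) * N / J) : ℕ) : ℝ) ≤ (((j + 1) * N / J : ℕ) : ℝ) := by exact_mod_cast min_le_right _ _
      have h5 : (((j + 1) * N / J : ℕ) : ℝ) ≤ (((j + 1) * N : ℕ) : ℝ) / J := Nat.cast_div_le
      have h6 : ((j * N : ℕ) : ℝ) / J < ((j * N / J : ℕ) : ℝ) + 1 := by
        rw [div_lt_iff₀ hJr]
        have := Nat.lt_mul_div_succ (j * N) hJ
        have h7 : ((j * N : ℕ) : ℝ) < ((J * (j * N / J + 1) : ℕ) : ℝ) := by exact_mod_cast this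
        push_cast at h7 ⊢
        linarith
      push_cast at h5 h6 ⊢
      have h8 : ((j : ℝ) + 1) * N / J = (j : ℝ) * N / J + N / J := by ring
      rw [h8] at h5
      push_cast at h4
      linarith

open Classical in
theorem unif (s : ℕ) (q : Fin s → ℕ) (hq : ∀ i, 1 ≤ q i) (F W U : ℕ) : ∃ B : ℕ, ∀ E : ℕ, ∃ N₀ : ℕ, ∀ N : ℕ, N₀ ≤ N →
    ∀ (Ω : Fin s → Finset ℕ) (p : Fin s → ℕ → ℝ), (∀ i, EL (q i) F W N (Ω i) (p i)) →
    ∀ z : ℕ, Real.log N ^ B ≤ z → (z : ℝ) ≤ Real.log N ^ E →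
    ∀ σ : Fin s → ℤ, (∀ i, σ i = 1 ∨ σ i = -1) →
    ∑ m ∈ Fintype.piFinset Ω, (if ∃ y ≤ N, N / Real.log N ^ U < |FL σ m y - FZ z σ m y| then ∏ i, p i (m i) else 0) ≤
      1 / Real.log N ^ U := by
  obtain ⟨B, hB⟩ := avg_diff s q hq F W (3 * U + s + 6)
  refine ⟨B, fun E => ?_⟩
  obtain ⟨N1, h1⟩ := hB E
  obtain ⟨n2, h2⟩ := Vz_inv_small E
  obtain ⟨n3, h3⟩ := ev_log' (U + s + 1) 4
  obtain ⟨n4, h4⟩ := ev_L' 4
  refine ⟨N1 + n2 + n3 + n4 + 2, fun N hN Ω p hE z hz1 hz2 σ hσ => ?_⟩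
  obtain ⟨L, hL⟩ : ∃ L, L = Real.log N := ⟨_, rfl⟩
  have hL4 := h4 N (by omega)
  have hsq := h3 N (by omega)
  have hN1 : 1 ≤ N := by omega
  have hN0 : (0 : ℝ) < N := by exact_mod_cast hN1
  have hzn : 1 ≤ z := by
    have : (1 : ℝ) ≤ z := (one_le_pow₀ (by linarith : (1 : ℝ) ≤ Real.log N)).trans hz1
    exact_mod_cast this
  have hV := h2 N (by omega) z hzn hz2
  have havg := h1 N (by omega) Ω p hE z hz1 hz2 σ hσ
  rw [← hL] at hL4 hsq hV havg ⊢
  have hL0 : 0 < L := by linarith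
  have hlaw := fun i => el_law (hE i)
  have hpp : ∀ m : Fin s → ℕ, 0 ≤ ∏ i, p i (m i) := fun m => prod_nonneg fun i _ => (hlaw i).1 _
  obtain ⟨J, hJ⟩ : ∃ J : ℕ, J = ⌈L ^ (U + s + 3)⌉₊ := ⟨_, rfl⟩
  have hP1 : 1 ≤ L ^ (U + s + 3) := one_le_pow₀ (by linarith)
  have hJ1 : L ^ (U + s + 3) ≤ J := by rw [hJ]; exact Nat.le_ceil _
  have hJ2 : (J : ℝ) ≤ L ^ (U + s + 3) + 1 := by rw [hJ]; exact (Nat.ceil_lt_add_one (by positivity)).le
  have hJ0 : (1 : ℝ) ≤ J := hP1.trans hJ1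
  have hJn : 1 ≤ J := by exact_mod_cast hJ0
  obtain ⟨D, hD⟩ : ∃ D : (Fin s → ℕ) → ℝ, ∀ m, D m = ∑ j ∈ range (J + 2), |FL σ m (tt N J j) - FZ z σ m (tt N J j)| :=
    ⟨_, fun _ => rfl⟩
  have hD0 : ∀ m, 0 ≤ D m := fun m => by rw [hD]; exact sum_nonneg fun _ _ => abs_nonneg _
  -- interpolation
  have hint : ∀ m, ∀ y ≤ N, |FL σ m y - FZ z σ m y| ≤ D m + (N / J + 1) * (L * L ^ s) := by
    intro m y hy
    obtain ⟨g1, g2, g3, g4⟩ := tt_spec N J y hN1 hJn hy
    obtain ⟨j, hj⟩ : ∃ j, j = y * J / N := ⟨_, rfl⟩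
    rw [← hj] at g1 g2 g3 g4
    have hc : 0 ≤ L * L ^ s := by positivity
    have hd : ∀ i < J + 2, |FL σ m (tt N J i) - FZ z σ m (tt N J i)| ≤ D m := by
      intro i hi
      rw [hD]
      exact single_le_sum (f := fun j => |FL σ m (tt N J j) - FZ z σ m (tt N J j)|) (fun _ _ => abs_nonneg _) (mem_range.2 hi)
    have a1 := abs_le.1 (hd j (by omega))
    have a2 := abs_le.1 (hd (j + 1) g1)
    have b1 := FL_mono σ m _ _ g2
    have b2 := FL_mono σ m _ _ g3
    have c1 := FZ_step z σ m (tt N J j) y N g2 hy L hL0.le hL.ge hV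
    have c2 := FZ_step z σ m y (tt N J (j + 1)) N g3 (min_le_left _ _) L hL0.le hL.ge hV
    have g2' : (tt N J j : ℝ) ≤ y := by exact_mod_cast g2
    have g3' : (y : ℝ) ≤ tt N J (j + 1) := by exact_mod_cast g3
    have d1 : ((y : ℝ) - tt N J j) * (L * L ^ s) ≤ (N / J + 1) * (L * L ^ s) := mul_le_mul_of_nonneg_right (by linarith) hc
    have d2 : ((tt N J (j + 1) : ℝ) - y) * (L * L ^ s) ≤ (N / J + 1) * (L * L ^ s) := mul_le_mul_of_nonneg_right (by linarith) hc
    rw [abs_le]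
    constructor <;> linarith [a1.1, a1.2, a2.1, a2.2]
  have hsmall : ((N : ℝ) / J + 1) * (L * L ^ s) ≤ N / (2 * L ^ U) := by
    have e1 : (N : ℝ) / J * (L * L ^ s) ≤ N / (4 * L ^ U) := by
      calc (N : ℝ) / J * (L * L ^ s) ≤ N / L ^ (U + s + 3) * (L * L ^ s) := by
            apply mul_le_mul_of_nonneg_right _ (by positivity)
            exact div_le_div_of_nonneg_left hN0.le (by positivity) hJ1
        _ = N / L ^ (U + 2) := by
            rw [show U + s + 3 = (U + 2) + (s + 1) by ring, pow_add L (U + 2) (s + 1), pow_succ L s]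
            field_simp
        _ ≤ N / (4 * L ^ U) := by
            apply div_le_div_of_nonneg_left hN0.le (by positivity)
            rw [pow_add, mul_comm]
            apply mul_le_mul_of_nonneg_left _ (by positivity)
            nlinarith
    have e2 : L * L ^ s ≤ N / (4 * L ^ U) := by
      rw [le_div_iff₀ (by positivity)]
      have hs1 : 1 ≤ √(N : ℝ) := by
        rw [Real.one_le_sqrt]
        exact_mod_cast hN1
      have hs2 : √(N : ℝ) * √(N : ℝ) = N := Real.mul_self_sqrt hN0.le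
      have e3 : L * L ^ s * (4 * L ^ U) = 4 * L ^ (U + s + 1) := by
        rw [show U + s + 1 = U + (s + 1) by ring, pow_add, pow_succ L s]
        ring
      rw [e3]
      nlinarith
    have e4 : (N : ℝ) / (4 * L ^ U) + N / (4 * L ^ U) = N / (2 * L ^ U) := by
      field_simp
      norm_num
    rw [add_mul, one_mul]
    linarith
  -- the mean
  have hmean : ∑ m ∈ Fintype.piFinset Ω, (∏ i, p i (m i)) * D m ≤ (J + 2) * (N / L ^ (3 * U + s + 6)) := by
    have e1 : ∑ m ∈ Fintype.piFinset Ω, (∏ i, p i (m i)) * D m =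
        ∑ j ∈ range (J + 2), ∑ m ∈ Fintype.piFinset Ω, (∏ i, p i (m i)) * |FL σ m (tt N J j) - FZ z σ m (tt N J j)| := by
      rw [sum_comm]
      apply sum_congr rfl
      intro m _
      rw [hD, mul_sum]
    rw [e1]
    have e2 : ∀ j ∈ range (J + 2), ∑ m ∈ Fintype.piFinset Ω, (∏ i, p i (m i)) * |FL σ m (tt N J j) - FZ z σ m (tt N J j)| ≤
        N / L ^ (3 * U + s + 6) := fun j _ => havg _ (min_le_left _ _)
    refine (sum_le_sum e2).trans (le_of_eq ?_)
    rw [sum_const, card_range, nsmul_eq_mul]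
    push_cast
    ring
  have hmark : ∀ m ∈ Fintype.piFinset Ω, (if ∃ y ≤ N, N / L ^ U < |FL σ m y - FZ z σ m y| then ∏ i, p i (m i) else 0) ≤
      (2 * L ^ U / N) * ((∏ i, p i (m i)) * D m) := by
    intro m _
    split_ifs with h
    · obtain ⟨y, hy, hlt⟩ := h
      have g1 := hint m y hy
      have g2 : (N : ℝ) / (2 * L ^ U) ≤ D m := by
        have : (N : ℝ) / (2 * L ^ U) + N / (2 * L ^ U) = N / L ^ U := by
          field_simp
          norm_num
        linarith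
      have g3 : 1 ≤ (2 * L ^ U / N) * D m := by
        have g4 : (2 * L ^ U / N) * (N / (2 * L ^ U)) ≤ (2 * L ^ U / N) * D m := mul_le_mul_of_nonneg_left g2 (by positivity)
        have g5 : (2 * L ^ U / N) * (N / (2 * L ^ U)) = 1 := by field_simp
        linarith
      calc ∏ i, p i (m i) = (∏ i, p i (m i)) * 1 := (mul_one _).symm
        _ ≤ (∏ i, p i (m i)) * ((2 * L ^ U / N) * D m) := mul_le_mul_of_nonneg_left g3 (hpp m)
        _ = _ := by ring
    · exact mul_nonneg (by positivity) (mul_nonneg (hpp m) (hD0 m))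
  refine (sum_le_sum hmark).trans ?_
  rw [← mul_sum]
  calc (2 * L ^ U / N) * ∑ m ∈ Fintype.piFinset Ω, (∏ i, p i (m i)) * D m ≤ (2 * L ^ U / N) * ((J + 2) * (N / L ^ (3 * U + s + 6))) :=
        mul_le_mul_of_nonneg_left hmean (by positivity)
    _ ≤ (2 * L ^ U / N) * ((4 * L ^ (U + s + 3)) * (N / L ^ (3 * U + s + 6))) := by
        apply mul_le_mul_of_nonneg_left _ (by positivity)
        apply mul_le_mul_of_nonneg_right _ (by positivity)
        linarith
    _ = 8 * L ^ (2 * U + s + 3) / L ^ (3 * U + s + 6) := by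
        rw [show 2 * U + s + 3 = U + (U + s + 3) by ring, pow_add L U]
        field_simp
        norm_num
    _ ≤ 1 / L ^ U := by
        rw [div_le_div_iff₀ (by positivity) (by positivity), one_mul]
        calc 8 * L ^ (2 * U + s + 3) * L ^ U = 8 * L ^ (3 * U + s + 3) := by
              rw [mul_assoc, ← pow_add]
              congr 2
              ring
          _ ≤ L ^ 3 * L ^ (3 * U + s + 3) := by
              apply mul_le_mul_of_nonneg_right _ (by positivity)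
              calc (8 : ℝ) ≤ 4 ^ 3 := by norm_num
                _ ≤ L ^ 3 := pow_le_pow_left₀ (by norm_num) hL4 3
          _ = L ^ (3 * U + s + 6) := by
              rw [← pow_add]
              congr 1
              ring

/-- the property -/
def WL {k : ℕ} (U N : ℕ) (σ : Fin k → ℤ) (m : Fin k → ℕ) : Prop :=
  ∃ S : ℝ, Filter.Tendsto (fun z => singZ (fun i => σ i * (m i : ℤ)) z) Filter.atTop (nhds S) ∧
    ∀ y ≤ N, (∀ i, σ i = -1 → y < m i) → |FL σ m y - S * y| ≤ N / Real.log N ^ U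

open Classical in
theorem law (k : ℕ) (hk : 1 ≤ k) (q : Fin k → ℕ) (hq : ∀ i, 1 ≤ q i) (F W U : ℕ) : ∃ N₀ : ℕ, ∀ N : ℕ, N₀ ≤ N →
    ∀ (Ω : Fin k → Finset ℕ) (p : Fin k → ℕ → ℝ), (∀ i, EL (q i) F W N (Ω i) (p i)) →
    ∀ σ : Fin k → ℤ, (∀ i, σ i = 1 ∨ σ i = -1) →
    ∑ m ∈ Fintype.piFinset Ω, (if ¬ WL U N σ m then ∏ i, p i (m i) else 0) ≤ 1 / Real.log N ^ U := by
  obtain ⟨B, hB⟩ := unif k q hq F W (U + 2)
  obtain ⟨U2, hU2⟩ : ∃ U2, U2 = U + B := ⟨_, rfl⟩
  obtain ⟨N1, h1⟩ := hB (U2 + k + 5)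
  obtain ⟨N2, h2⟩ := det_main k (U2 + k + 5) (U + 2) hk
  obtain ⟨N3, h3⟩ := sing_lim k F U2
  choose N4f h4f using fun i => el_atom (q i) (hq i) F W (U + 2)
  obtain ⟨N4, hN4⟩ : ∃ N4, N4 = ∑ i, N4f i := ⟨_, rfl⟩
  have h4 : ∀ i, N4f i ≤ N4 := fun i => by rw [hN4]; exact single_le_sum (fun _ _ => Nat.zero_le _) (mem_univ i)
  obtain ⟨n5, h5⟩ := ev_L' (4 + k + k * k)
  refine ⟨N1 + N2 + N3 + N4 + n5 + 2, fun N hN Ω p hE σ hσ => ?_⟩
  obtain ⟨L, hL⟩ : ∃ L, L = Real.log N := ⟨_, rfl⟩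
  have hLb := h5 N (by omega)
  have hN0 : (0 : ℝ) < N := by exact_mod_cast (by omega : 0 < N)
  have hk0 : (0 : ℝ) ≤ (k : ℝ) + k * k := by positivity
  have hL4 : 4 ≤ L := by rw [hL]; linarith
  have hL0 : 0 < L := by linarith
  obtain ⟨z, hz⟩ : ∃ z : ℕ, z = ⌈L ^ (U2 + k + 4)⌉₊ := ⟨_, rfl⟩
  have hP1 : 1 ≤ L ^ (U2 + k + 4) := one_le_pow₀ (by linarith)
  have hz1 : L ^ (U2 + k + 4) ≤ z := by rw [hz]; exact Nat.le_ceil _
  have hz2 : (z : ℝ) ≤ L ^ (U2 + k + 5) := by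
    have : (z : ℝ) ≤ L ^ (U2 + k + 4) + 1 := by rw [hz]; exact (Nat.ceil_lt_add_one (by positivity)).le
    rw [show U2 + k + 5 = (U2 + k + 4) + 1 by ring, pow_succ]
    nlinarith
  have hzn : 1 ≤ z := by
    have : (1 : ℝ) ≤ z := hP1.trans hz1
    exact_mod_cast this
  have hzB : L ^ B ≤ z := (pow_le_pow_right₀ (by linarith) (by omega)).trans hz1
  have hlaw := fun i => el_law (hE i)
  have hpp : ∀ m : Fin k → ℕ, 0 ≤ ∏ i, p i (m i) := fun m => prod_nonneg fun i _ => (hlaw i).1 _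
  have hu := h1 N (by omega) Ω p hE z (by rw [← hL]; exact hzB) (by rw [← hL]; exact hz2) σ hσ
  have hat : ∀ i, ∀ v ∈ Ω i, p i v ≤ 1 / L ^ (U + 2) := by
    intro i v hv
    have := h4f i N (by have := h4 i; omega) (Ω i) (p i) (hE i) v hv
    rw [← hL] at this
    exact this
  rw [← hL] at hu ⊢
  have hθ0 : (0 : ℝ) ≤ 1 / L ^ (U + 2) := by positivity
  have hz0 : ∀ i, ∑ m ∈ Fintype.piFinset Ω, (∏ i, p i (m i)) * (if m i = 0 then (1 : ℝ) else 0) ≤ 1 / L ^ (U + 2) := by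
    intro i
    have := os_degen (fun _ => 1) (fun _ => 0) Ω p (fun i v _ => (hlaw i).1 v) (fun i => (hlaw i).2.1) (1 / L ^ (U + 2)) hθ0 hat
      (fun _ => le_rfl) i (fun _ => 0) (fun _ _ => rfl)
    simpa using this
  have hzij : ∀ i j, i ≠ j → ∑ m ∈ Fintype.piFinset Ω, (∏ i, p i (m i)) * (if m i = m j then (1 : ℝ) else 0) ≤ 1 / L ^ (U + 2) := by
    intro i j hij
    have := os_degen (fun _ => 1) (fun _ => 0) Ω p (fun i v _ => (hlaw i).1 v) (fun i => (hlaw i).2.1) (1 / L ^ (U + 2)) hθ0 hat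
      (fun _ => le_rfl) i (fun m => m j) (fun m v => by
        show Function.update m i v j = m j
        rw [Function.update_of_ne (Ne.symm hij)])
    simpa using this
  -- the good vectors
  have hgood : ∀ m ∈ Fintype.piFinset Ω, ¬ WL U N σ m →
      (∃ y ≤ N, N / L ^ (U + 2) < |FL σ m y - FZ z σ m y|) ∨ (∃ i, m i = 0) ∨ ∃ i j, i ≠ j ∧ m i = m j := by
    intro m hm hW
    rw [Fintype.mem_piFinset] at hm
    by_contra hcon
    push Not at hcon
    obtain ⟨c1, c2, c3⟩ := hcon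
    apply hW
    obtain ⟨S, hS1, hS2⟩ := h3 N (by omega) z (by rw [← hL]; exact hz1) (by rw [← hL]; exact hz2) (fun i => σ i * (m i : ℤ))
      (fun i => by
        have g1 := (hlaw i).2.2 (m i) (hm i)
        have g2 : |σ i * (m i : ℤ)| = (m i : ℤ) := by
          rcases hσ i with h | h <;> rw [h]
          · rw [one_mul, abs_of_nonneg (Int.natCast_nonneg _)]
          · rw [neg_one_mul, abs_neg, abs_of_nonneg (Int.natCast_nonneg _)]
        rw [g2]
        exact_mod_cast g1) (fun i => by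
        have g1 := c2 i
        rcases hσ i with h | h <;> rw [h] <;> omega) (fun i j hij h => by
        apply c3 i j hij
        rcases hσ i with h' | h' <;> rcases hσ j with h'' | h'' <;> rw [h', h''] at h <;> omega)
    refine ⟨S, hS1, fun y hy hyy => ?_⟩
    have e1 := c1 y hy
    have e2 := h2 N (by omega) z hzn (by rw [← hL]; exact hz2) σ hσ m y hy hyy
    rw [← hL] at e2 hS2 ⊢
    have e3 : |singZ (fun i => σ i * (m i : ℤ)) z * y - S * y| ≤ N / L ^ (U + 2) := by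
      rw [← sub_mul, abs_mul, abs_of_nonneg (Nat.cast_nonneg y : (0 : ℝ) ≤ y), abs_sub_comm]
      have hyr : (y : ℝ) ≤ N := by exact_mod_cast hy
      calc |S - singZ (fun i => σ i * (m i : ℤ)) z| * y ≤ 1 / L ^ (U2 + 2) * N := mul_le_mul hS2 hyr (Nat.cast_nonneg _) (by positivity)
        _ = N / L ^ (U2 + 2) := by ring
        _ ≤ N / L ^ (U + 2) := div_le_div_of_nonneg_left hN0.le (by positivity) (pow_le_pow_right₀ (by linarith) (by omega))
    have e4 : 3 * (N / L ^ (U + 2)) ≤ N / L ^ U := by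
      rw [mul_div_assoc', div_le_div_iff₀ (by positivity) (by positivity), pow_add]
      have : 3 ≤ L ^ 2 := by nlinarith
      calc 3 * (N : ℝ) * L ^ U ≤ L ^ 2 * N * L ^ U := by
            apply mul_le_mul_of_nonneg_right _ (by positivity)
            exact mul_le_mul_of_nonneg_right this hN0.le
        _ = N * (L ^ U * L ^ 2) := by ring
    have e5 : FZ z σ m y = ∑ n ∈ Icc 1 y, ArithmeticFunction.vonMangoldt n * ∏ i, lamzI z ((m i : ℤ) + σ i * (n : ℤ)) := rfl
    rw [← e5] at e2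
    have f1 := abs_le.1 e1
    have f2 := abs_le.1 e2
    have f3 := abs_le.1 e3
    rw [abs_le]
    constructor <;> linarith [f1.1, f1.2, f2.1, f2.2, f3.1, f3.2]
  have hsum : ∀ m ∈ Fintype.piFinset Ω, (if ¬ WL U N σ m then ∏ i, p i (m i) else 0) ≤
      (if ∃ y ≤ N, N / L ^ (U + 2) < |FL σ m y - FZ z σ m y| then ∏ i, p i (m i) else 0) +
      (∑ i, (∏ i, p i (m i)) * (if m i = 0 then (1 : ℝ) else 0) +
       ∑ i, ∑ j, if i ≠ j then (∏ i, p i (m i)) * (if m i = m j then (1 : ℝ) else 0) else 0) := by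
    intro m hm
    have n1 : 0 ≤ (if ∃ y ≤ N, N / L ^ (U + 2) < |FL σ m y - FZ z σ m y| then ∏ i, p i (m i) else 0) := by
      split_ifs
      · exact hpp m
      · exact le_rfl
    have n2 : ∀ i ∈ (univ : Finset (Fin k)), 0 ≤ (∏ i, p i (m i)) * (if m i = 0 then (1 : ℝ) else 0) := by
      intro i _
      apply mul_nonneg (hpp m)
      split_ifs <;> norm_num
    have n3 : ∀ i, ∀ j ∈ (univ : Finset (Fin k)), 0 ≤ (if i ≠ j then (∏ i, p i (m i)) * (if m i = m j then (1 : ℝ) else 0) else 0) := by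
      intro i j _
      split_ifs
      · simpa using hpp m
      · simp
      · exact le_rfl
    have n3' : ∀ i ∈ (univ : Finset (Fin k)), 0 ≤ ∑ j, (if i ≠ j then (∏ i, p i (m i)) * (if m i = m j then (1 : ℝ) else 0) else 0) :=
      fun i _ => sum_nonneg (n3 i)
    have n2' := sum_nonneg n2
    have n3'' := sum_nonneg n3'
    by_cases hW : WL U N σ m
    · rw [if_neg (not_not.2 hW)]
      linarith
    · rw [if_pos hW]
      rcases hgood m hm hW with h | ⟨i, h⟩ | ⟨i, j, hij, h⟩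
      · rw [if_pos h]
        linarith
      · have g1 := single_le_sum n2 (mem_univ i)
        rw [if_pos h, mul_one] at g1
        linarith
      · have g1 := single_le_sum (n3 i) (mem_univ j)
        rw [if_pos hij, if_pos h, mul_one] at g1
        have g2 := single_le_sum n3' (mem_univ i)
        linarith
  refine (sum_le_sum hsum).trans ?_
  rw [sum_add_distrib, sum_add_distrib]
  have t1 : ∑ m ∈ Fintype.piFinset Ω, ∑ i, (∏ i, p i (m i)) * (if m i = 0 then (1 : ℝ) else 0) ≤ k * (1 / L ^ (U + 2)) := by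
    rw [sum_comm]
    refine (sum_le_sum fun i _ => hz0 i).trans (le_of_eq ?_)
    rw [sum_const, card_univ, Fintype.card_fin, nsmul_eq_mul]
  have t2 : ∑ m ∈ Fintype.piFinset Ω, ∑ i, ∑ j, (if i ≠ j then (∏ i, p i (m i)) * (if m i = m j then (1 : ℝ) else 0) else 0) ≤
      k * (k * (1 / L ^ (U + 2))) := by
    rw [sum_comm]
    have t3 : ∀ i ∈ (univ : Finset (Fin k)), ∑ m ∈ Fintype.piFinset Ω, ∑ j, (if i ≠ j then (∏ i, p i (m i)) * (if m i = m j then (1 : ℝ) else 0) else 0) ≤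
        k * (1 / L ^ (U + 2)) := by
      intro i _
      rw [sum_comm]
      have t4 : ∀ j ∈ (univ : Finset (Fin k)), ∑ m ∈ Fintype.piFinset Ω, (if i ≠ j then (∏ i, p i (m i)) * (if m i = m j then (1 : ℝ) else 0) else 0) ≤
          1 / L ^ (U + 2) := by
        intro j _
        by_cases hij : i ≠ j
        · simp only [if_pos hij]
          exact hzij i j hij
        · simp only [if_neg hij, sum_const_zero]
          exact hθ0
      refine (sum_le_sum t4).trans (le_of_eq ?_)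
      rw [sum_const, card_univ, Fintype.card_fin, nsmul_eq_mul]
    refine (sum_le_sum t3).trans (le_of_eq ?_)
    rw [sum_const, card_univ, Fintype.card_fin, nsmul_eq_mul]
  have t5 : 1 / L ^ (U + 2) + (k * (1 / L ^ (U + 2)) + k * (k * (1 / L ^ (U + 2)))) ≤ 1 / L ^ U := by
    have e1 : 1 / L ^ (U + 2) + (k * (1 / L ^ (U + 2)) + k * (k * (1 / L ^ (U + 2)))) = (1 + (k + k * k)) / L ^ (U + 2) := by ring
    rw [e1, div_le_div_iff₀ (by positivity) (by positivity), one_mul, pow_add]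
    have e2 : 1 + ((k : ℝ) + k * k) ≤ L ^ 2 := by nlinarith
    calc (1 + ((k : ℝ) + k * k)) * L ^ U ≤ L ^ 2 * L ^ U := mul_le_mul_of_nonneg_right e2 (by positivity)
      _ = L ^ U * L ^ 2 := by ring
  linarith

end Pool.Agent.HP27.RG
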