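import Pool.Agent.HP27.RG.D

set_option autoImplicit false

/-! From the weighted counts to the number of primes, in intervals. -/

namespace Pool.Agent.HP27.RG
open Finset
open Pool.Agent.H807R2.Dav
open Pool.Agent.H373R2.T7

/-- the contribution of proper prime powers in a list of distinct integers -/
lemma pp_gen (N X : ℕ) (f : ℕ → ℤ) (hf : Function.Injective f) (hX : 1 ≤ X) (h : ∀ n ∈ Icc 1 N, f n ≤ X) :
    ∑ n ∈ Icc 1 N, (lamI (f n) - lamP (f n)) ≤ 2 * √(X : ℝ) * Real.log X := by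
  have h0 := Chebyshev.psi_sub_theta_le (x := (X : ℝ)) (by exact_mod_cast hX)
  rw [Chebyshev.psi_sub_theta_eq_sum_not_prime, Nat.floor_natCast] at h0
  refine le_trans ?_ h0
  have h1 : ∀ n ∈ Icc 1 N, lamI (f n) - lamP (f n) =
      if 1 ≤ f n ∧ ¬ (f n).toNat.Prime then ArithmeticFunction.vonMangoldt (f n).toNat else 0 := by
    intro n _
    unfold lamI lamP
    by_cases h2 : 1 ≤ f n
    · by_cases h3 : ((f n).toNat).Prime
      · rw [if_pos h2, if_pos h3, if_neg (fun h => h.2 h3), ArithmeticFunction.vonMangoldt_apply_prime h3, sub_self]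
      · rw [if_pos h2, if_neg h3, if_pos ⟨h2, h3⟩, sub_zero]
    · have h3 : ¬ ((f n).toNat).Prime := by
        have : (f n).toNat = 0 := by omega
        rw [this]; exact Nat.not_prime_zero
      rw [if_neg h2, if_neg h3, if_neg (fun h => h2 h.1), sub_self]
  rw [sum_congr rfl h1, ← sum_filter]
  have h2 : ∑ n ∈ (Icc 1 N).filter (fun n : ℕ => 1 ≤ f n ∧ ¬ (f n).toNat.Prime), ArithmeticFunction.vonMangoldt (f n).toNat =
      ∑ j ∈ ((Icc 1 N).filter (fun n : ℕ => 1 ≤ f n ∧ ¬ (f n).toNat.Prime)).image (fun n : ℕ => (f n).toNat),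
      ArithmeticFunction.vonMangoldt j := by
    rw [sum_image]
    intro n hn m hm hnm
    simp only [coe_filter, mem_Icc, Set.mem_ofPred_eq] at hn hm
    simp only at hnm
    apply hf
    omega
  rw [h2]
  apply sum_le_sum_of_subset_of_nonneg
  · intro j hj
    rw [mem_image] at hj
    obtain ⟨n, hn, rfl⟩ := hj
    rw [mem_filter] at hn
    have h3 := h n hn.1
    rw [mem_filter, mem_Ioc]
    exact ⟨⟨by omega, by omega⟩, hn.2.2⟩
  · intro _ _ _
    exact ArithmeticFunction.vonMangoldt_nonneg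

lemma toP {k : ℕ} (A : Finset ℕ) (N X : ℕ) (hA : A ⊆ Icc 1 N) (hN : 1 ≤ N) (hX : N ≤ X) (f : Fin k → ℕ → ℤ)
    (hf : ∀ i, Function.Injective (f i)) (h : ∀ i, ∀ n ∈ Icc 1 N, f i n ≤ X) (M : ℝ) (hM : 1 ≤ M) (hXM : Real.log X ≤ M) :
    0 ≤ ∑ n ∈ A, ArithmeticFunction.vonMangoldt n * ∏ i, lamI (f i n) - ∑ n ∈ A, lamP n * ∏ i, lamP (f i n) ∧
    ∑ n ∈ A, ArithmeticFunction.vonMangoldt n * ∏ i, lamI (f i n) - ∑ n ∈ A, lamP n * ∏ i, lamP (f i n) ≤
      ((k : ℝ) + 1) * M ^ (k + 1) * (2 * √(X : ℝ) * Real.log X) := by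
  have hX1 : 1 ≤ X := hN.trans hX
  have hM0 : 0 ≤ M := by linarith
  rw [← sum_sub_distrib]
  have hlog : 0 ≤ Real.log X := Real.log_natCast_nonneg X
  have hI : ∀ i, ∀ n ∈ Icc 1 N, lamI (f i n) ≤ M := by
    intro i n hn
    refine (lamI_le _ X (by exact_mod_cast hX1) ?_).trans hXM
    exact_mod_cast h i n hn
  have hI0 : ∀ n ∈ Icc 1 N, lamI (n : ℤ) ≤ M := by
    intro n hn
    refine (lamI_le _ X (by exact_mod_cast hX1) ?_).trans hXM
    rw [mem_Icc] at hn
    exact_mod_cast hn.2.trans hX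
  have hΛ : ∀ n ∈ Icc 1 N, ArithmeticFunction.vonMangoldt n = lamI (n : ℤ) := by
    intro n hn
    rw [mem_Icc] at hn
    unfold lamI
    rw [if_pos (by exact_mod_cast hn.1), Int.toNat_natCast]
  have hpt : ∀ n ∈ Icc 1 N, 0 ≤ ArithmeticFunction.vonMangoldt n * ∏ i, lamI (f i n) - lamP n * ∏ i, lamP (f i n) ∧
      ArithmeticFunction.vonMangoldt n * ∏ i, lamI (f i n) - lamP n * ∏ i, lamP (f i n) ≤
      M ^ (k + 1) * ((lamI n - lamP n) + ∑ i, (lamI (f i n) - lamP (f i n))) := by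
    intro n hn
    rw [hΛ n hn]
    obtain ⟨h0, h1⟩ := prod_sub_le univ (fun i => lamI (f i n)) (fun i => lamP (f i n)) M hM
      (fun i _ => lamP_nonneg _) (fun i _ => lamP_le _) (fun i _ => hI i n hn)
    rw [card_univ, Fintype.card_fin] at h1
    have hP0 : 0 ≤ ∏ i, lamI (f i n) := prod_nonneg fun i _ => lamI_nonneg _
    have hP1 : ∏ i, lamI (f i n) ≤ M ^ k := by
      calc ∏ i, lamI (f i n) ≤ ∏ _i : Fin k, M := prod_le_prod (fun i _ => lamI_nonneg _) (fun i _ => hI i n hn)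
        _ = M ^ k := by rw [prod_const, card_univ, Fintype.card_fin]
    have h3 := lamP_nonneg (n : ℤ)
    have h4 := lamP_le (n : ℤ)
    have h5 := hI0 n hn
    have e : lamI (n : ℤ) * ∏ i, lamI (f i n) - lamP n * ∏ i, lamP (f i n) =
        (lamI (n : ℤ) - lamP n) * ∏ i, lamI (f i n) + lamP n * (∏ i, lamI (f i n) - ∏ i, lamP (f i n)) := by ring
    rw [e]
    refine ⟨add_nonneg (mul_nonneg (by linarith) hP0) (mul_nonneg h3 h0), ?_⟩
    have h7 : (lamI (n : ℤ) - lamP n) * ∏ i, lamI (f i n) ≤ (lamI (n : ℤ) - lamP n) * M ^ (k + 1) := by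
      apply mul_le_mul_of_nonneg_left _ (by linarith)
      exact hP1.trans (pow_le_pow_right₀ hM (by omega))
    have h8 : lamP n * (∏ i, lamI (f i n) - ∏ i, lamP (f i n)) ≤ M * (M ^ k * ∑ i, (lamI (f i n) - lamP (f i n))) :=
      mul_le_mul (h4.trans h5) h1 h0 hM0
    calc _ ≤ (lamI (n : ℤ) - lamP n) * M ^ (k + 1) + M * (M ^ k * ∑ i, (lamI (f i n) - lamP (f i n))) := add_le_add h7 h8
      _ = _ := by ring
  refine ⟨sum_nonneg fun n hn => (hpt n (hA hn)).1, ?_⟩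
  have hs1 : ∑ n ∈ A, (ArithmeticFunction.vonMangoldt n * ∏ i, lamI (f i n) - lamP n * ∏ i, lamP (f i n)) ≤
      ∑ n ∈ Icc 1 N, (ArithmeticFunction.vonMangoldt n * ∏ i, lamI (f i n) - lamP n * ∏ i, lamP (f i n)) :=
    sum_le_sum_of_subset_of_nonneg hA fun n hn _ => (hpt n hn).1
  refine hs1.trans ((sum_le_sum fun n hn => (hpt n hn).2).trans ?_)
  rw [← mul_sum, sum_add_distrib, sum_comm]
  have g0 := pp_gen N X (fun n => (n : ℤ)) Nat.cast_injective hX1 (by
    intro n hn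
    rw [mem_Icc] at hn
    exact_mod_cast hn.2.trans hX)
  have g1 : ∀ i ∈ (univ : Finset (Fin k)), ∑ n ∈ Icc 1 N, (lamI (f i n) - lamP (f i n)) ≤ 2 * √(X : ℝ) * Real.log X :=
    fun i _ => pp_gen N X (f i) (hf i) hX1 (h i)
  have g2 := sum_le_sum g1
  rw [sum_const, card_univ, Fintype.card_fin, nsmul_eq_mul] at g2
  calc M ^ (k + 1) * (∑ n ∈ Icc 1 N, (lamI (n : ℤ) - lamP n) + ∑ i, ∑ n ∈ Icc 1 N, (lamI (f i n) - lamP (f i n)))
      ≤ M ^ (k + 1) * (2 * √(X : ℝ) * Real.log X + k * (2 * √(X : ℝ) * Real.log X)) := by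
        apply mul_le_mul_of_nonneg_left _ (by positivity)
        exact add_le_add g0 g2
    _ = _ := by ring

/-- the set of the prime tuples -/
def RS {k : ℕ} (A : Finset ℕ) (f : Fin k → ℕ → ℤ) : Finset ℕ := A.filter (fun p => p.Prime ∧ ∀ i, (f i p).toNat.Prime)

lemma cnt_up {k : ℕ} (A : Finset ℕ) (N X : ℕ) (hA : A ⊆ Icc 1 N) (hX : N ≤ X) (f : Fin k → ℕ → ℤ)
    (h : ∀ i, ∀ n ∈ Icc 1 N, f i n ≤ X) (M : ℝ) (hM : 1 ≤ M) (hXM : Real.log X ≤ M) :
    ∑ n ∈ A, lamP n * ∏ i, lamP (f i n) ≤ (RS A f).card * M ^ (k + 1) := by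
  have h1 : ∀ n ∈ A, lamP n * ∏ i, lamP (f i n) ≤ if n.Prime ∧ ∀ i, (f i n).toNat.Prime then M ^ (k + 1) else 0 := by
    intro n hn
    have hn' := hA hn
    split_ifs with h2
    · have hX1 : 1 ≤ X := by
        rw [mem_Icc] at hn'
        omega
      have g0 : lamP (n : ℤ) ≤ M := by
        refine (lamP_le _).trans ((lamI_le _ X (by exact_mod_cast hX1) ?_).trans hXM)
        rw [mem_Icc] at hn'
        exact_mod_cast hn'.2.trans hX
      have g1 : ∏ i, lamP (f i n) ≤ M ^ k := by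
        calc ∏ i, lamP (f i n) ≤ ∏ _i : Fin k, M := by
              apply prod_le_prod (fun i _ => lamP_nonneg _)
              intro i _
              refine (lamP_le _).trans ((lamI_le _ X (by exact_mod_cast hX1) ?_).trans hXM)
              exact_mod_cast h i n hn'
          _ = M ^ k := by rw [prod_const, card_univ, Fintype.card_fin]
      calc lamP (n : ℤ) * ∏ i, lamP (f i n) ≤ M * M ^ k := mul_le_mul g0 g1 (prod_nonneg fun i _ => lamP_nonneg _) (by linarith)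
        _ = M ^ (k + 1) := by ring
    · rw [not_and_or] at h2
      rcases h2 with h2 | h2
      · have : lamP (n : ℤ) = 0 := by
          unfold lamP
          rw [Int.toNat_natCast, if_neg h2]
        rw [this, zero_mul]
      · push Not at h2
        obtain ⟨i, hi⟩ := h2
        have : lamP (f i n) = 0 := by
          unfold lamP
          rw [if_neg hi]
        rw [prod_eq_zero (mem_univ i) this, mul_zero]
  refine (sum_le_sum h1).trans (le_of_eq ?_)
  rw [← sum_filter, sum_const, nsmul_eq_mul]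
  rfl

lemma cnt_low {k : ℕ} (A : Finset ℕ) (f : Fin k → ℕ → ℤ) (hf : ∀ i, Function.Injective (f i)) (Y : ℕ) (hY : 1 ≤ Y) :
    ((RS A f).card : ℝ) * Real.log Y ^ (k + 1) ≤ ((k : ℝ) + 1) * Y * Real.log Y ^ (k + 1) + ∑ n ∈ A, lamP n * ∏ i, lamP (f i n) := by
  classical
  have hlY : 0 ≤ Real.log Y := Real.log_natCast_nonneg Y
  obtain ⟨R1, hR1⟩ : ∃ R1, R1 = (RS A f).filter (fun n => n ≤ Y ∨ ∃ i, f i n ≤ Y) := ⟨_, rfl⟩
  obtain ⟨R2, hR2⟩ : ∃ R2, R2 = (RS A f).filter (fun n => ¬ (n ≤ Y ∨ ∃ i, f i n ≤ Y)) := ⟨_, rfl⟩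
  have hcard : (RS A f).card = R1.card + R2.card := by
    rw [hR1, hR2, card_filter_add_card_filter_not]
  have hc1 : R1.card ≤ (k + 1) * Y := by
    have hsub : R1 ⊆ (Icc 1 Y) ∪ univ.biUnion (fun i : Fin k => R1.filter (fun n => f i n ≤ Y)) := by
      intro n hn
      rw [mem_union, mem_biUnion]
      have hn' := hn
      rw [hR1, mem_filter] at hn'
      rcases hn'.2 with h | ⟨i, h⟩
      · left
        have h1 := (mem_filter.1 hn'.1).2.1.one_lt
        rw [mem_Icc]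
        omega
      · right
        exact ⟨i, mem_univ _, mem_filter.2 ⟨hn, h⟩⟩
    refine (card_le_card hsub).trans ((card_union_le _ _).trans ?_)
    have h1 : (univ.biUnion (fun i : Fin k => R1.filter (fun n => f i n ≤ Y))).card ≤ ∑ _i : Fin k, Y := by
      refine card_biUnion_le.trans (sum_le_sum fun i _ => ?_)
      have h2 : (R1.filter (fun n => f i n ≤ Y)).card = ((R1.filter (fun n => f i n ≤ Y)).image (fun n => (f i n).toNat)).card := by
        rw [card_image_of_injOn]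
        intro a ha b hb hab
        rw [mem_coe, mem_filter] at ha hb
        have g1 := (mem_filter.1 (mem_filter.1 (hR1 ▸ ha.1)).1).2.2 i
        have g2 := (mem_filter.1 (mem_filter.1 (hR1 ▸ hb.1)).1).2.2 i
        have g3 := g1.pos
        have g4 := g2.pos
        simp only at hab
        apply hf i
        omega
      rw [h2]
      have h3 : (R1.filter (fun n => f i n ≤ Y)).image (fun n => (f i n).toNat) ⊆ Icc 1 Y := by
        intro x hx
        rw [mem_image] at hx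
        obtain ⟨n, hn, rfl⟩ := hx
        rw [mem_filter] at hn
        have g1 := (mem_filter.1 (mem_filter.1 (hR1 ▸ hn.1)).1).2.2 i
        have g2 := g1.pos
        have g3 := hn.2
        rw [mem_Icc]
        omega
      refine (card_le_card h3).trans ?_
      rw [Nat.card_Icc]
      omega
    rw [sum_const, card_univ, Fintype.card_fin, smul_eq_mul] at h1
    rw [Nat.card_Icc]
    calc Y + 1 - 1 + _ ≤ Y + k * Y := by omega
      _ = (k + 1) * Y := by ring
  have hc2 : (R2.card : ℝ) * Real.log Y ^ (k + 1) ≤ ∑ n ∈ A, lamP n * ∏ i, lamP (f i n) := by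
    have hsub : R2 ⊆ A := by
      rw [hR2]
      exact (filter_subset _ _).trans (filter_subset _ _)
    refine le_trans ?_ (sum_le_sum_of_subset_of_nonneg hsub fun n _ _ => mul_nonneg (lamP_nonneg _) (prod_nonneg fun i _ => lamP_nonneg _))
    rw [← nsmul_eq_mul, ← sum_const]
    apply sum_le_sum
    intro n hn
    rw [hR2, mem_filter] at hn
    push Not at hn
    have g1 := (mem_filter.1 hn.1).2
    have hYr : (0 : ℝ) < Y := by exact_mod_cast hY
    have g2 : Real.log Y ≤ lamP (n : ℤ) := by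
      unfold lamP
      rw [Int.toNat_natCast, if_pos g1.1]
      apply Real.log_le_log hYr
      exact_mod_cast hn.2.1.le
    have g3 : Real.log Y ^ k ≤ ∏ i, lamP (f i n) := by
      calc Real.log Y ^ k = ∏ _i : Fin k, Real.log Y := by rw [prod_const, card_univ, Fintype.card_fin]
        _ ≤ _ := by
            apply prod_le_prod (fun i _ => hlY)
            intro i _
            unfold lamP
            rw [if_pos (g1.2 i)]
            apply Real.log_le_log hYr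
            have := hn.2.2 i
            have h5 : Y ≤ (f i n).toNat := by omega
            exact_mod_cast h5
    calc Real.log Y ^ (k + 1) = Real.log Y * Real.log Y ^ k := by ring
      _ ≤ _ := mul_le_mul g2 g3 (by positivity) (lamP_nonneg _)
  have h5 : (R1.card : ℝ) ≤ ((k : ℝ) + 1) * Y := by exact_mod_cast hc1
  rw [hcard]
  push_cast
  rw [add_mul]
  apply add_le_add _ hc2
  exact mul_le_mul_of_nonneg_right h5 (by positivity)

lemma eps1 (ε : ℝ) (h0 : 0 < ε) (h1 : ε ≤ 1) : (ε / 8) + (1 + ε / 8) * (1 + ε / 4) ≤ 1 + ε := by nlinarith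

lemma eps3 (ε : ℝ) (h0 : 0 < ε) (h1 : ε ≤ 1) : 1 - ε ≤ (1 - ε / 8) * (1 - ε / 8) := by nlinarith

lemma eps4 (ε : ℝ) (h0 : 0 < ε) (h1 : ε ≤ 1) : 1 ≤ (1 + ε / 4) * (1 - ε / 8) := by nlinarith

lemma aux1 (T w : ℝ) (hT : 1 ≤ T) (hw : 0 ≤ w) : T ≤ T ^ 2 := by nlinarith

lemma aux2 (b s l : ℝ) (hb : 0 ≤ b) (hs : 1 ≤ s) (hl : l ≤ 2 * s) : b * l + 1 ≤ (2 * b + 1) * s := by nlinarith

lemma aux3 (b δ s L : ℝ) (h : b ≤ s * δ) (hs : 0 ≤ s) (hL : s * s = L) : b * s ≤ δ * L := by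
  rw [← hL]
  nlinarith

lemma aux4 (k δ : ℝ) (hk : 0 ≤ k) (hδ : 0 ≤ δ) : δ ≤ (k + 1) * δ := by nlinarith

lemma aux5 (a b s N : ℝ) (ha : 2 * b ≤ s) (hs : 1 ≤ s) (hN : s * s = N) : 2 * b ≤ N := by nlinarith

theorem count (k A T : ℕ) (hT : 1 ≤ T) (c ε : ℝ) (hc : 0 < c) (hε : 0 < ε) (hε1 : ε ≤ 1) : ∃ N₀ : ℕ, ∀ N : ℕ, N₀ ≤ N →
    ∀ f : Fin k → ℕ → ℤ, (∀ i, Function.Injective (f i)) → (∀ i, ∀ n ∈ Icc 1 (T * N), f i n ≤ ((T * N : ℕ) : ℤ)) →
    ∀ S : ℝ, c ≤ S → ∀ y₁ y₂ : ℕ, y₁ < y₂ → y₂ ≤ T * N → (N : ℝ) / Real.log N ^ A ≤ (y₂ : ℝ) - y₁ →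
    |∑ n ∈ Ioc y₁ y₂, ArithmeticFunction.vonMangoldt n * ∏ i, lamI (f i n) - S * ((y₂ : ℝ) - y₁)| ≤ N / Real.log N ^ (A + 1) →
    |((RS (Ioc y₁ y₂) f).card : ℝ) - S * ((y₂ : ℝ) - y₁) / Real.log N ^ (k + 1)| ≤
      ε * (S * ((y₂ : ℝ) - y₁) / Real.log N ^ (k + 1)) := by
  obtain ⟨B, hB⟩ : ∃ B, B = A + k + 2 := ⟨_, rfl⟩
  obtain ⟨C, hC⟩ : ∃ C : ℝ, C = ((k : ℝ) + 1) * 2 ^ (k + 1) * (2 * T * 2) := ⟨_, rfl⟩
  obtain ⟨n1, h1⟩ := ev_log' (k + A + 3) C
  obtain ⟨n2, h2⟩ := ev_log' B 2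
  have hlT : 0 ≤ Real.log T := Real.log_natCast_nonneg T
  obtain ⟨δ, hδ⟩ : ∃ δ : ℝ, δ = ε / (8 * (k + 1)) := ⟨_, rfl⟩
  have hδ0 : 0 < δ := by rw [hδ]; positivity
  have hδk : ((k : ℝ) + 1) * δ = ε / 8 := by rw [hδ]; field_simp
  obtain ⟨n3, h3⟩ := ev_L' (4 + 16 / (c * ε) + 8 * (k + 1) / (c * ε) + Real.log T + Real.log T / δ + ((2 * B + 1) / δ) ^ 2)
  refine ⟨n1 + n2 + n3 + 3, fun N hN f hf hfX S hS y₁ y₂ h12 hy2 hlen hw => ?_⟩
  have hN3 : 3 ≤ N := by omega
  have hN0 : (0 : ℝ) < N := by exact_mod_cast (by omega : 0 < N)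
  obtain ⟨L, hL⟩ : ∃ L, L = Real.log N := ⟨_, rfl⟩
  have a1 := h1 N (by omega)
  have a2 := h2 N (by omega)
  have a3 := h3 N (by omega)
  rw [← hL] at a1 a2 a3 hlen hw ⊢
  have p1 : 0 ≤ 16 / (c * ε) := by positivity
  have p2 : 0 ≤ 8 * ((k : ℝ) + 1) / (c * ε) := by positivity
  have p3 : 0 ≤ Real.log T / δ := by positivity
  have p4 : 0 ≤ ((2 * (B : ℝ) + 1) / δ) ^ 2 := by positivity
  have hL4 : 4 ≤ L := by linarith
  have hL0 : 0 < L := by linarith
  have hTN : 1 ≤ T * N := Nat.mul_pos hT (by omega)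
  have hlogX : Real.log ((T * N : ℕ) : ℝ) = L + Real.log T := by
    rw [Nat.cast_mul, Real.log_mul (by exact_mod_cast (by omega : T ≠ 0)) hN0.ne', ← hL]
    ring
  obtain ⟨M, hM⟩ : ∃ M, M = L + Real.log T := ⟨_, rfl⟩
  have hM1 : 1 ≤ M := by linarith
  have hM2 : M ≤ 2 * L := by linarith
  have hA : Ioc y₁ y₂ ⊆ Icc 1 (T * N) := by
    intro n hn
    rw [mem_Ioc] at hn
    rw [mem_Icc]
    omega
  obtain ⟨P, hP⟩ : ∃ P, P = S * ((y₂ : ℝ) - y₁) := ⟨_, rfl⟩
  rw [← hP] at hw ⊢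
  have hPlow : c * (N / L ^ A) ≤ P := by
    rw [hP]
    exact mul_le_mul hS hlen (by positivity) (by linarith)
  have hNL : (N : ℝ) / L ^ (A + 1) ≤ (ε / 16) * P := by
    calc (N : ℝ) / L ^ (A + 1) = (1 / (c * L)) * (c * (N / L ^ A)) := by
          rw [pow_succ]
          field_simp
      _ ≤ (1 / (c * L)) * P := mul_le_mul_of_nonneg_left hPlow (by positivity)
      _ ≤ (ε / 16) * P := by
          apply mul_le_mul_of_nonneg_right _ (le_trans (by positivity) hPlow)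
          rw [div_le_div_iff₀ (by positivity) (by norm_num), one_mul]
          have : 16 / (c * ε) ≤ L := by linarith
          rw [div_le_iff₀ (by positivity)] at this
          linarith
  have hP0 : 0 < P := lt_of_lt_of_le (by positivity) hPlow
  -- the passage to primes
  obtain ⟨b1, b2⟩ := toP (Ioc y₁ y₂) (T * N) (T * N) hA hTN le_rfl f hf hfX M hM1 (by rw [hlogX, hM])
  obtain ⟨Q, hQ⟩ : ∃ Q, Q = ∑ n ∈ Ioc y₁ y₂, lamP n * ∏ i, lamP (f i n) := ⟨_, rfl⟩
  obtain ⟨V, hV⟩ : ∃ V, V = ∑ n ∈ Ioc y₁ y₂, ArithmeticFunction.vonMangoldt n * ∏ i, lamI (f i n) := ⟨_, rfl⟩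
  rw [← hQ, ← hV] at b1 b2
  rw [← hV] at hw
  have b3 : ((k : ℝ) + 1) * M ^ (k + 1) * (2 * √((T * N : ℕ) : ℝ) * Real.log ((T * N : ℕ) : ℝ)) ≤ N / L ^ (A + 1) := by
    rw [hlogX, ← hM, le_div_iff₀ (by positivity)]
    have c1 : M ^ (k + 1) ≤ 2 ^ (k + 1) * L ^ (k + 1) := by
      rw [← mul_pow]
      exact pow_le_pow_left₀ (by linarith) hM2 _
    have c2 : √((T * N : ℕ) : ℝ) ≤ T * √(N : ℝ) := by
      rw [Nat.cast_mul, Real.sqrt_mul (Nat.cast_nonneg T)]
      apply mul_le_mul_of_nonneg_right _ (Real.sqrt_nonneg _)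
      rw [Real.sqrt_le_left (Nat.cast_nonneg T)]
      have : (1 : ℝ) ≤ T := by exact_mod_cast hT
      exact aux1 _ 0 this le_rfl
    have hs : √(N : ℝ) * √(N : ℝ) = N := Real.mul_self_sqrt hN0.le
    have hs0 : 0 ≤ √(N : ℝ) := Real.sqrt_nonneg _
    have hTr : (0 : ℝ) ≤ T := Nat.cast_nonneg T
    calc ((k : ℝ) + 1) * M ^ (k + 1) * (2 * √((T * N : ℕ) : ℝ) * M) * L ^ (A + 1) ≤
        ((k : ℝ) + 1) * (2 ^ (k + 1) * L ^ (k + 1)) * (2 * (T * √(N : ℝ)) * (2 * L)) * L ^ (A + 1) := by gcongr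
      _ = √(N : ℝ) * (C * L ^ (k + A + 3)) := by
          have e9 : L ^ (k + A + 3) = L ^ (k + 1) * L * L ^ (A + 1) := by
            rw [show k + A + 3 = (k + 1) + 1 + (A + 1) by ring, pow_add L ((k + 1) + 1), pow_add L (k + 1) 1, pow_one]
          rw [hC, e9]
          ring
      _ ≤ √(N : ℝ) * √(N : ℝ) := mul_le_mul_of_nonneg_left a1 hs0
      _ = N := hs
  have b4 := abs_le.1 hw
  have q1 : (1 - ε / 8) * P ≤ Q := by linarith [b4.1]
  have q2 : Q ≤ (1 + ε / 8) * P := by linarith [b4.2]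
  -- lower bound
  have hup := cnt_up (Ioc y₁ y₂) (T * N) (T * N) hA le_rfl f hfX M hM1 (by rw [hlogX, hM])
  rw [← hQ] at hup
  obtain ⟨R, hR⟩ : ∃ R : ℝ, R = ((RS (Ioc y₁ y₂) f).card : ℝ) := ⟨_, rfl⟩
  rw [← hR] at hup ⊢
  have hR0 : 0 ≤ R := by rw [hR]; exact Nat.cast_nonneg _
  have hLk : 0 < L ^ (k + 1) := by positivity
  have m1 : (1 - ε / 8) * M ^ (k + 1) ≤ L ^ (k + 1) := by
    have e1 : (1 + ((k + 1 : ℕ) : ℝ) * (-(Real.log T / M))) ≤ (1 + -(Real.log T / M)) ^ (k + 1) := by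
      apply one_add_mul_le_pow
      have : Real.log T / M ≤ 1 := by
        rw [div_le_one (by linarith)]
        linarith
      linarith
    have e2 : Real.log T / M ≤ δ := by
      rw [div_le_iff₀ (by linarith)]
      have : Real.log T / δ ≤ M := by linarith
      rw [div_le_iff₀ hδ0] at this
      linarith
    have e3 : 1 + -(Real.log T / M) = L / M := by
      rw [eq_div_iff (by linarith)]
      have : M ≠ 0 := by linarith
      field_simp
      linarith
    rw [e3, div_pow] at e1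
    have e4 : 1 - ε / 8 ≤ 1 + ((k + 1 : ℕ) : ℝ) * (-(Real.log T / M)) := by
      push_cast
      have e6 := mul_le_mul_of_nonneg_left e2 (by positivity : (0 : ℝ) ≤ (k : ℝ) + 1)
      rw [hδk] at e6
      linarith
    have e5 := e4.trans e1
    rwa [le_div_iff₀ (by positivity)] at e5
  have r1 : (1 - ε) * (P / L ^ (k + 1)) ≤ R := by
    rw [mul_div_assoc', div_le_iff₀ hLk]
    have h6 : (1 - ε / 8) * P * (1 - ε / 8) ≤ R * L ^ (k + 1) := by
      have hM' : 0 < M ^ (k + 1) := by positivity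
      have e0 : 0 ≤ 1 - ε / 8 := by linarith
      calc (1 - ε / 8) * P * (1 - ε / 8) ≤ (R * M ^ (k + 1)) * (1 - ε / 8) := mul_le_mul_of_nonneg_right (q1.trans hup) e0
        _ = R * ((1 - ε / 8) * M ^ (k + 1)) := by ring
        _ ≤ R * L ^ (k + 1) := mul_le_mul_of_nonneg_left m1 hR0
    have h7 : (1 - ε) * P ≤ (1 - ε / 8) * P * (1 - ε / 8) := by
      have h8 : 1 - ε ≤ (1 - ε / 8) * (1 - ε / 8) := eps3 ε hε hε1
      calc (1 - ε) * P ≤ ((1 - ε / 8) * (1 - ε / 8)) * P := mul_le_mul_of_nonneg_right h8 hP0.le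
        _ = _ := by ring
    linarith
  -- upper bound
  obtain ⟨Y, hY⟩ : ∃ Y : ℕ, Y = ⌊(N : ℝ) / L ^ B⌋₊ := ⟨_, rfl⟩
  have hNB : 2 ≤ (N : ℝ) / L ^ B := by
    rw [le_div_iff₀ (by positivity)]
    have hs : √(N : ℝ) * √(N : ℝ) = N := Real.mul_self_sqrt hN0.le
    have hs1 : 1 ≤ √(N : ℝ) := by
      rw [Real.one_le_sqrt]
      exact_mod_cast (by omega : 1 ≤ N)
    exact aux5 0 _ _ _ a2 hs1 hs
  have hY1 : (Y : ℝ) ≤ N / L ^ B := by rw [hY]; exact Nat.floor_le (by positivity)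
  have hY2 : (N : ℝ) / L ^ B < Y + 1 := by rw [hY]; exact Nat.lt_floor_add_one _
  have hY0 : 1 ≤ Y := by
    rw [hY]
    apply Nat.le_floor
    push_cast
    linarith
  have hYr : (1 : ℝ) ≤ Y := by exact_mod_cast hY0
  have hlY : L - (B * Real.log L + 1) ≤ Real.log Y := by
    have e1 : (N : ℝ) / L ^ B / 2 ≤ Y := by linarith
    have e2 := Real.log_le_log (by positivity) e1
    rw [Real.log_div (by positivity) (by norm_num), Real.log_div hN0.ne' (by positivity), Real.log_pow, ← hL] at e2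
    have e3 : Real.log 2 ≤ 1 := by
      have := Real.log_two_lt_d9
      linarith
    linarith
  have hlow := cnt_low (Ioc y₁ y₂) f hf Y hY0
  rw [← hQ, ← hR] at hlow
  obtain ⟨l, hl⟩ : ∃ l, l = Real.log Y := ⟨_, rfl⟩
  rw [← hl] at hlY hlow
  have m2 : (1 - ε / 8) * L ^ (k + 1) ≤ l ^ (k + 1) := by
    have f1 : Real.log L ≤ 2 * √L := by
      have g1 := Real.log_le_sub_one_of_pos (Real.sqrt_pos.2 hL0)
      rw [Real.log_sqrt hL0.le] at g1
      linarith
    have f2 : 1 ≤ √L := by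
      rw [Real.one_le_sqrt]
      linarith
    have f3 : (B * Real.log L + 1) ≤ (2 * B + 1) * √L := by
      exact aux2 _ _ _ (Nat.cast_nonneg B) f2 f1
    have f4 : (2 * B + 1) / δ ≤ √L := by
      apply Real.le_sqrt_of_sq_le
      linarith
    have f5 : (2 * B + 1) * √L ≤ δ * L := by
      rw [div_le_iff₀ hδ0] at f4
      exact aux3 _ _ _ _ f4 (Real.sqrt_nonneg L) (Real.mul_self_sqrt hL0.le)
    have f6 : L * (1 + -δ) ≤ l := by linarith
    have hδ1 : δ ≤ 1 := by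
      have : δ ≤ ((k : ℝ) + 1) * δ := aux4 _ _ (Nat.cast_nonneg k) hδ0.le
      linarith
    have e1 : (1 + ((k + 1 : ℕ) : ℝ) * (-δ)) ≤ (1 + -δ) ^ (k + 1) := by
      apply one_add_mul_le_pow
      linarith
    have e2 : 1 - ε / 8 ≤ (1 + -δ) ^ (k + 1) := by
      refine le_trans ?_ e1
      push_cast
      linarith
    calc (1 - ε / 8) * L ^ (k + 1) ≤ (1 + -δ) ^ (k + 1) * L ^ (k + 1) := mul_le_mul_of_nonneg_right e2 hLk.le
      _ = (L * (1 + -δ)) ^ (k + 1) := by rw [mul_pow]; ring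
      _ ≤ l ^ (k + 1) := pow_le_pow_left₀ (mul_nonneg hL0.le (by linarith)) f6 _
  have hl0 : 0 < l ^ (k + 1) := lt_of_lt_of_le (mul_pos (by linarith) hLk) m2
  have r2 : R ≤ (1 + ε) * (P / L ^ (k + 1)) := by
    have e1 : R ≤ ((k : ℝ) + 1) * Y + Q / l ^ (k + 1) := by
      rw [← sub_le_iff_le_add', le_div_iff₀ hl0]
      linarith
    have e2 : ((k : ℝ) + 1) * Y ≤ (ε / 8) * (P / L ^ (k + 1)) := by
      calc ((k : ℝ) + 1) * Y ≤ ((k : ℝ) + 1) * (N / L ^ B) := mul_le_mul_of_nonneg_left hY1 (by positivity)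
        _ = (((k : ℝ) + 1) / (c * L)) * ((c * (N / L ^ A)) / L ^ (k + 1)) := by
            rw [hB, show A + k + 2 = A + (k + 1) + 1 by ring, pow_succ, pow_add]
            field_simp
        _ ≤ (ε / 8) * (P / L ^ (k + 1)) := by
            apply mul_le_mul _ _ (by positivity) (by positivity)
            · rw [div_le_div_iff₀ (by positivity) (by norm_num)]
              have : 8 * ((k : ℝ) + 1) / (c * ε) ≤ L := by linarith
              rw [div_le_iff₀ (by positivity)] at this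
              linarith
            · exact div_le_div_of_nonneg_right hPlow hLk.le
    have e3 : Q / l ^ (k + 1) ≤ (1 + ε / 8) * (1 + ε / 4) * (P / L ^ (k + 1)) := by
      calc Q / l ^ (k + 1) ≤ ((1 + ε / 8) * P) / ((1 - ε / 8) * L ^ (k + 1)) := by
            apply div_le_div₀ (by positivity) q2 (mul_pos (by linarith) hLk) m2
        _ = (1 + ε / 8) * (1 / (1 - ε / 8)) * (P / L ^ (k + 1)) := by
            have : 1 - ε / 8 ≠ 0 := by
              apply ne_of_gt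
              linarith
            field_simp
        _ ≤ _ := by
            apply mul_le_mul_of_nonneg_right _ (by positivity)
            apply mul_le_mul_of_nonneg_left _ (by positivity)
            rw [div_le_iff₀ (by linarith)]
            exact eps4 ε hε hε1
    have hX0 : 0 < P / L ^ (k + 1) := by positivity
    have e4 : (ε / 8) + (1 + ε / 8) * (1 + ε / 4) ≤ 1 + ε := eps1 ε hε hε1
    calc R ≤ (ε / 8) * (P / L ^ (k + 1)) + (1 + ε / 8) * (1 + ε / 4) * (P / L ^ (k + 1)) := e1.trans (add_le_add e2 e3)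
      _ = ((ε / 8) + (1 + ε / 8) * (1 + ε / 4)) * (P / L ^ (k + 1)) := by ring
      _ ≤ _ := mul_le_mul_of_nonneg_right e4 hX0.le
  rw [abs_le]
  constructor <;> linarith

end Pool.Agent.HP27.RG
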