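import Pool.Agent.HP27.RG.E
import Pool.Agent.W93.GB3
import Pool.Agent.TH894.SM0

set_option autoImplicit false

/-! The singular series under reflection, and for one reflection. -/

namespace Pool.Agent.HP27.RG
open Finset Filter Topology
open Pool.Agent.H373R2.T7
open Pool.Agent.H560R3.GB (sing C₂)
open Pool.Agent.W93.GB (sh)

lemma nuP_neg {k : ℕ} (a : Fin k → ℤ) (p : ℕ) (hp : 0 < p) : nuP (fun i => -(a i)) p = nuP a p := by
  classical
  have hp' : (0 : ℤ) < p := by exact_mod_cast hp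
  unfold nuP
  obtain ⟨φ, hφ⟩ : ∃ φ : ℕ → ℕ, φ = fun x : ℕ => ((-(x : ℤ)) % p).toNat := ⟨_, rfl⟩
  have hφz : ∀ x : ℕ, ((φ x : ℕ) : ℤ) = (-(x : ℤ)) % p := fun x => by
    rw [hφ]; exact Int.toNat_of_nonneg (Int.emod_nonneg _ hp'.ne')
  have hφlt : ∀ x, φ x < p := fun x => by
    have h1 := Int.emod_lt_of_pos (-(x : ℤ)) hp'
    rw [← hφz] at h1
    exact_mod_cast h1
  have hdv : ∀ (x : ℕ) (b : ℤ), (p : ℤ) ∣ (φ x : ℤ) + b ↔ (p : ℤ) ∣ -(x : ℤ) + b := by
    intro x b
    rw [hφz]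
    constructor
    · intro h
      have h1 := Int.emod_add_mul_ediv (-(x : ℤ)) p
      have h2 : -(x : ℤ) + b = ((-(x : ℤ)) % p + b) + p * ((-(x : ℤ)) / p) := by linarith
      rw [h2]
      exact dvd_add h (dvd_mul_right _ _)
    · intro h
      have h1 := Int.emod_add_mul_ediv (-(x : ℤ)) p
      have h2 : (-(x : ℤ)) % p + b = (-(x : ℤ) + b) - p * ((-(x : ℤ)) / p) := by linarith
      rw [h2]
      exact dvd_sub h (dvd_mul_right _ _)
  have hφφ : ∀ x, x < p → φ (φ x) = x := by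
    intro x hx
    have h1 : ((φ (φ x) : ℕ) : ℤ) = x := by
      rw [hφz, hφz, ← zero_sub, Int.sub_emod, Int.emod_emod, ← Int.sub_emod,
        show (0 : ℤ) - (-(x : ℤ)) = x by ring]
      exact Int.emod_eq_of_lt (by positivity) (by exact_mod_cast hx)
    exact_mod_cast h1
  have h0 : ∀ x : ℕ, p ∣ x ↔ (p : ℤ) ∣ (x : ℤ) := fun x => Int.natCast_dvd_natCast.symm
  have key : ∀ (a' : Fin k → ℤ) (x : ℕ), (p ∣ x ∨ ∃ i, (p : ℤ) ∣ (x : ℤ) + a' i) →
      (p ∣ φ x ∨ ∃ i, (p : ℤ) ∣ (φ x : ℤ) + -(a' i)) := by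
    intro a' x h
    rcases h with h | ⟨i, h⟩
    · left
      have h1 := hdv x 0
      rw [add_zero, add_zero, dvd_neg] at h1
      rw [h0, h1, ← h0]
      exact h
    · right
      refine ⟨i, ?_⟩
      rw [hdv, ← neg_add, dvd_neg]
      exact h
  apply card_nbij' φ φ
  · intro x hx
    rw [mem_coe, mem_filter, mem_range] at hx ⊢
    refine ⟨hφlt x, ?_⟩
    have := key (fun i => -(a i)) x hx.2
    simpa only [neg_neg] using this
  · intro x hx
    rw [mem_coe, mem_filter, mem_range] at hx ⊢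
    exact ⟨hφlt x, key a x hx.2⟩
  · intro x hx
    rw [mem_coe, mem_filter, mem_range] at hx
    exact hφφ x hx.1
  · intro x hx
    rw [mem_coe, mem_filter, mem_range] at hx
    exact hφφ x hx.1

lemma singZ_neg {k : ℕ} (a : Fin k → ℤ) (z : ℕ) : singZ (fun i => -(a i)) z = singZ a z := by
  unfold singZ
  apply prod_congr rfl
  intro p hp
  rw [mem_filter, mem_Icc] at hp
  rw [nuP_neg a p (by omega)]

lemma adm_neg {k : ℕ} (a : Fin k → ℤ) (h : Admissible a) : Admissible (fun i => -(a i)) := by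
  intro p hp
  obtain ⟨r, h1, h2⟩ := h p hp
  refine ⟨-r, by rwa [dvd_neg], fun i => ?_⟩
  rw [← neg_add, dvd_neg]
  exact h2 i

lemma tendsto_sh (n : ℕ) (hn : 2 ∣ n) (hn0 : n ≠ 0) :
    Tendsto (fun z => singZ (sh n) z) atTop (𝓝 (sing n)) := by
  obtain ⟨K, hK⟩ : ∃ K : ℝ, K = (Nat.log 2 n : ℝ) := ⟨_, rfl⟩
  have hs := Pool.Agent.W93.GB.one_le_sing n
  have hz : Tendsto (fun z : ℕ => (z : ℝ)) atTop atTop := tendsto_natCast_atTop_atTop
  have t1 : Tendsto (fun z : ℕ => 1 - 1 / (z : ℝ)) atTop (𝓝 1) := by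
    have : Tendsto (fun z : ℕ => 1 / (z : ℝ)) atTop (𝓝 0) := tendsto_const_nhds.div_atTop hz
    simpa using tendsto_const_nhds.sub this
  have t2 : Tendsto (fun z : ℕ => sing n / (1 - 1 / (z : ℝ))) atTop (𝓝 (sing n)) := by
    have := (tendsto_const_nhds (x := sing n)).div t1 one_ne_zero
    rw [div_one] at this
    exact this
  have t3 : Tendsto (fun z : ℕ => Real.exp (-(K / ((z : ℝ) - 1))) * sing n) atTop (𝓝 (sing n)) := by
    have h1 : Tendsto (fun z : ℕ => (z : ℝ) - 1) atTop atTop := tendsto_atTop_add_const_right _ _ hz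
    have h2 : Tendsto (fun z : ℕ => K / ((z : ℝ) - 1)) atTop (𝓝 0) := tendsto_const_nhds.div_atTop h1
    have h3 : Tendsto (fun z : ℕ => Real.exp (-(K / ((z : ℝ) - 1)))) atTop (𝓝 (Real.exp (-0))) :=
      (Real.continuous_exp.tendsto _).comp h2.neg
    have := h3.mul_const (sing n)
    simpa using this
  refine tendsto_of_tendsto_of_tendsto_of_le_of_le' t3 t2 ?_ ?_
  · filter_upwards [eventually_ge_atTop 3] with z hz3
    have h1 := Pool.Agent.W93.GB.sing_le n z hn hn0 (by omega)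
    rw [Real.exp_neg, inv_mul_le_iff₀ (Real.exp_pos _), hK]
    exact h1
  · filter_upwards [eventually_ge_atTop 3] with z hz3
    have h1 := Pool.Agent.W93.GB.sing_ge n z hn hn0 (by omega)
    have h2 : (3 : ℝ) ≤ z := by exact_mod_cast hz3
    have h3 : 0 < 1 - 1 / (z : ℝ) := by
      rw [sub_pos, div_lt_one (by linarith)]
      linarith
    rw [le_div_iff₀ h3]
    linarith

end Pool.Agent.HP27.RG
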